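import Mathlib

set_option autoImplicit false

open scoped InnerProductSpace ComplexOrder Topology
open Filter

namespace Pool.Agent.H231R3.TI

/-- the Hilbert space `ℓ²(ℕ)` -/
abbrev HH : Type := lp (fun _ : ℕ => ℂ) 2

/-- basis vectors -/
noncomputable def dl (n : ℕ) : HH := lp.single 2 n (1 : ℂ)

theorem dl_apply (n m : ℕ) : (dl n) m = if m = n then 1 else 0 := by
  unfold dl
  rw [lp.single_apply]
  by_cases h : m = n
  · subst h; simp
  · simp [h]

theorem inner_dl (n : ℕ) (f : HH) : ⟪dl n, f⟫_ℂ = f n := by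
  unfold dl
  rw [lp.inner_single_left]
  simp

/-- index map -/
def em (i : Fin 2) (n : ℕ) : ℕ := 2 * n + i

theorem em_inj (i : Fin 2) : Function.Injective (em i) := by
  intro a b h
  unfold em at h
  omega

/-- the function of the image -/
noncomputable def sf (i : Fin 2) (f : ℕ → ℂ) (m : ℕ) : ℂ := if m % 2 = i then f (m / 2) else 0

theorem sf_em (i : Fin 2) (f : ℕ → ℂ) (n : ℕ) : sf i f (em i n) = f n := by
  unfold sf em
  have h1 : (2 * n + (i : ℕ)) % 2 = i := by omega
  have h2 : (2 * n + (i : ℕ)) / 2 = n := by omega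
  rw [if_pos h1, h2]

theorem sf_not (i : Fin 2) (f : ℕ → ℂ) (m : ℕ) (hm : m ∉ Set.range (em i)) : sf i f m = 0 := by
  unfold sf
  rw [if_neg]
  intro h
  exact hm ⟨m / 2, by unfold em; omega⟩

theorem sf_eq (i i' : Fin 2) (f : ℕ → ℂ) (n : ℕ) :
    sf i f (em i' n) = if i = i' then f n else 0 := by
  split_ifs with h
  · subst h; exact sf_em i f n
  · refine sf_not i f _ ?_
    rintro ⟨m, hm⟩
    unfold em at hm
    apply h
    ext
    omega

/-- the isometry `δ_n ↦ δ_{2 n + i}` -/
noncomputable def sl (i : Fin 2) : HH →ₗᵢ[ℂ] HH where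
  toFun f := ⟨sf i f, by
    have h1 := (lp.memℓp f).summable (by norm_num)
    refine memℓp_gen ?_
    refine ((em_inj i).summable_iff (fun m hm => ?_)).1 ?_
    · rw [sf_not i f m hm]
      norm_num
    · refine h1.congr fun n => ?_
      rw [Function.comp_apply, sf_em]⟩
  map_add' f g := by
    ext m
    show sf i (f + g : HH) m = sf i f m + sf i g m
    unfold sf
    split_ifs
    · rfl
    · rw [add_zero]
  map_smul' c f := by
    ext m
    show sf i (c • f : HH) m = c * sf i f m
    unfold sf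
    split_ifs
    · rfl
    · rw [mul_zero]
  norm_map' f := by
    have h1 : (0 : ℝ) < (2 : ENNReal).toReal := by norm_num
    rw [lp.norm_eq_tsum_rpow h1, lp.norm_eq_tsum_rpow h1]
    congr 1
    symm
    have h2 := (em_inj i).tsum_eq (f := fun m => ‖sf i f m‖ ^ (2 : ENNReal).toReal) (by
      intro m hm
      by_contra hcon
      apply hm
      show ‖sf i f m‖ ^ (2 : ENNReal).toReal = 0
      rw [sf_not i f m hcon]
      norm_num)
    refine Eq.trans ?_ h2
    refine tsum_congr fun n => ?_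
    rw [sf_em]

/-- the generators -/
noncomputable def Sg (i : Fin 2) : HH →L[ℂ] HH := (sl i).toContinuousLinearMap

theorem Sg_apply (i : Fin 2) (f : HH) (m : ℕ) : (Sg i f) m = sf i f m := rfl

theorem norm_Sg (i : Fin 2) (f : HH) : ‖Sg i f‖ = ‖f‖ := (sl i).norm_map f

theorem Sg_dl (i : Fin 2) (n : ℕ) : Sg i (dl n) = dl (em i n) := by
  ext m
  rw [Sg_apply, dl_apply]
  by_cases hm : m ∈ Set.range (em i)
  · obtain ⟨k, rfl⟩ := hm
    rw [sf_em, dl_apply]
    by_cases hk : k = n
    · subst hk; simp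
    · rw [if_neg hk, if_neg (fun h => hk (em_inj i h))]
  · rw [sf_not i _ m hm, if_neg]
    intro h
    exact hm ⟨n, h.symm⟩

theorem star_Sg_apply (i : Fin 2) (f : HH) (n : ℕ) : (star (Sg i) f) n = f (em i n) := by
  rw [← inner_dl, ContinuousLinearMap.star_eq_adjoint, ContinuousLinearMap.adjoint_inner_right,
    Sg_dl, inner_dl]

theorem star_Sg_mul (i i' : Fin 2) : star (Sg i) * Sg i' = if i = i' then 1 else 0 := by
  ext f n
  show (star (Sg i) (Sg i' f)) n = _
  rw [star_Sg_apply, Sg_apply, sf_eq]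
  by_cases h : i = i'
  · subst h
    simp
  · rw [if_neg (Ne.symm h), if_neg h]
    rfl

theorem em_surj (m : ℕ) : ∃ i n, m = em i n := by
  rcases Nat.mod_two_eq_zero_or_one m with h | h
  · exact ⟨0, m / 2, by unfold em; simp; omega⟩
  · exact ⟨1, m / 2, by unfold em; simp; omega⟩

theorem sum_Sg : Sg 0 * star (Sg 0) + Sg 1 * star (Sg 1) = 1 := by
  ext f m
  show (Sg 0 (star (Sg 0) f)) m + (Sg 1 (star (Sg 1) f)) m = f m
  obtain ⟨i, n, rfl⟩ := em_surj m
  rw [Sg_apply, Sg_apply, sf_eq, sf_eq, star_Sg_apply, star_Sg_apply]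
  fin_cases i <;> simp

/-- the words: `W 0 = 0`, `W 1 = 1`, `W (2 n + i) = S_i W n` for `n ≥ 1` -/
noncomputable def Ww (n : ℕ) : HH →L[ℂ] HH :=
  if _h : n = 0 then 0 else if _h1 : n = 1 then 1 else
    Sg ⟨n % 2, Nat.mod_lt _ two_pos⟩ * Ww (n / 2)
termination_by n
decreasing_by omega

theorem Ww_zero : Ww 0 = 0 := by
  rw [Ww]; simp

theorem Ww_one : Ww 1 = 1 := by
  rw [Ww]; simp

theorem Ww_em (i : Fin 2) (n : ℕ) (hn : n ≠ 0) : Ww (em i n) = Sg i * Ww n := by
  have h1 : em i n ≠ 0 := by unfold em; omega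
  have h2 : em i n ≠ 1 := by unfold em; omega
  have h3 : (em i n) % 2 = i := by unfold em; omega
  have h4 : (em i n) / 2 = n := by unfold em; omega
  conv_lhs => rw [Ww]
  rw [dif_neg h1, dif_neg h2]
  congr 2
  · ext
    exact h3

theorem sum_range_em {M : Type*} [AddCommMonoid M] (f : ℕ → M) (N : ℕ) :
    ∑ p ∈ Finset.range (2 ^ (N + 1)), f p =
      ∑ p ∈ Finset.range (2 ^ N), (f (em 0 p) + f (em 1 p)) := by
  have h : ∀ K : ℕ, ∑ p ∈ Finset.range (2 * K), f p =
      ∑ p ∈ Finset.range K, (f (em 0 p) + f (em 1 p)) := by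
    intro K
    induction K with
    | zero => simp
    | succ K ih =>
      rw [Finset.sum_range_succ, ← ih, show 2 * (K + 1) = 2 * K + 1 + 1 by ring,
        Finset.sum_range_succ, Finset.sum_range_succ, add_assoc]
      rfl
  rw [pow_succ, mul_comm]
  exact h _

/-- the sum of the range projections of all words of length less than `N` -/
theorem sum_Ww (N : ℕ) : ∑ p ∈ Finset.range (2 ^ N), Ww p * star (Ww p) = (N : ℂ) • 1 := by
  induction N with
  | zero => simp [Ww_zero]
  | succ N ih =>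
    rw [sum_range_em]
    have h0 : 0 < 2 ^ N := by positivity
    have h1 : ∀ p ∈ Finset.range (2 ^ N), Ww (em 0 p) * star (Ww (em 0 p)) +
        Ww (em 1 p) * star (Ww (em 1 p)) = (Sg 0 * (Ww p * star (Ww p)) * star (Sg 0) +
          Sg 1 * (Ww p * star (Ww p)) * star (Sg 1)) + if p = 0 then 1 else 0 := by
      intro p _
      by_cases hp : p = 0
      · subst hp
        rw [show em 0 0 = 0 from rfl, show em 1 0 = 1 from rfl, Ww_zero, Ww_one]
        simp
      · rw [if_neg hp, Ww_em 0 p hp, Ww_em 1 p hp, star_mul, star_mul]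
        simp only [mul_assoc, add_zero]
    rw [Finset.sum_congr rfl h1, Finset.sum_add_distrib, Finset.sum_add_distrib,
      ← Finset.sum_mul, ← Finset.sum_mul, ← Finset.mul_sum, ← Finset.mul_sum, ih,
      Finset.sum_ite_eq' (Finset.range (2 ^ N)) 0 (fun _ => (1 : HH →L[ℂ] HH)),
      if_pos (Finset.mem_range.2 h0)]
    rw [mul_smul_comm, mul_smul_comm, mul_one, mul_one, smul_mul_assoc, smul_mul_assoc, ← smul_add,
      sum_Sg, Nat.cast_succ, add_smul, one_smul]

end Pool.Agent.H231R3.TI
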