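import Mathlib
import Pool.Agent.H231R3.TI.Ops

set_option autoImplicit false

open scoped InnerProductSpace ComplexOrder Topology
open Filter

namespace Pool.Agent.H231R3.TI

/-- compression followed by the synthesis map (without the weight) -/
noncomputable def Rr (M N : ℕ) (x : HH →L[ℂ] HH) : HH →L[ℂ] HH :=
  ∑ p ∈ Finset.range (2 ^ M), ∑ q ∈ Finset.range (2 ^ N),
    ⟪dl p, x (dl q)⟫_ℂ • (Ww p * star (Ww q))

/-- one row -/
noncomputable def Ee (k N : ℕ) (x : HH →L[ℂ] HH) : HH →L[ℂ] HH :=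
  ∑ q ∈ Finset.range (2 ^ N), ⟪dl k, x (dl q)⟫_ℂ • star (Ww q)

theorem Ww_em' (i : Fin 2) (p : ℕ) :
    Ww (em i p) = Sg i * Ww p + if p = 0 ∧ i = 1 then 1 else 0 := by
  by_cases hp : p = 0
  · subst hp
    rw [Ww_zero, mul_zero, zero_add]
    fin_cases i
    · show Ww (em 0 0) = _
      rw [show em 0 0 = 0 from rfl, Ww_zero]
      simp
    · show Ww (em 1 0) = _
      rw [show em 1 0 = 1 from rfl, Ww_one]
      simp
  · rw [Ww_em i p hp, if_neg (fun h => hp h.1), add_zero]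

theorem sum_ite_zero (M : ℕ) (P : Prop) [Decidable P] (f : ℕ → (HH →L[ℂ] HH)) :
    ∑ p ∈ Finset.range (2 ^ M), (if p = 0 ∧ P then f p else 0) = if P then f 0 else 0 := by
  have h0 : 0 < 2 ^ M := by positivity
  by_cases hP : P
  · simp only [hP, and_true, if_true]
    rw [Finset.sum_ite_eq' (Finset.range (2 ^ M)) 0 f, if_pos (Finset.mem_range.2 h0)]
  · simp [hP]

/-- row expansion -/
theorem row_em (i : Fin 2) (p N : ℕ) (c : ℕ → ℂ) :
    ∑ q ∈ Finset.range (2 ^ N), c q • (Ww (em i p) * star (Ww q)) =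
      Sg i * (∑ q ∈ Finset.range (2 ^ N), c q • (Ww p * star (Ww q))) +
        if p = 0 ∧ i = 1 then ∑ q ∈ Finset.range (2 ^ N), c q • star (Ww q) else 0 := by
  rw [Finset.mul_sum, Ww_em']
  by_cases h : p = 0 ∧ i = 1
  · rw [if_pos h, if_pos h, ← Finset.sum_add_distrib]
    refine Finset.sum_congr rfl fun q _ => ?_
    rw [add_mul, one_mul, smul_add, mul_assoc, mul_smul_comm]
  · rw [if_neg h, if_neg h, add_zero, add_zero]
    refine Finset.sum_congr rfl fun q _ => ?_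
    rw [mul_assoc, mul_smul_comm]

theorem Rr_succ (M N : ℕ) (x : HH →L[ℂ] HH) :
    Rr (M + 1) N x = ∑ p ∈ Finset.range (2 ^ M),
      (∑ q ∈ Finset.range (2 ^ N), ⟪dl (em 0 p), x (dl q)⟫_ℂ • (Ww (em 0 p) * star (Ww q)) +
       ∑ q ∈ Finset.range (2 ^ N), ⟪dl (em 1 p), x (dl q)⟫_ℂ • (Ww (em 1 p) * star (Ww q))) :=
  sum_range_em _ M

theorem inner_em_Sg (i i' : Fin 2) (p : ℕ) (f : HH) :
    ⟪dl (em i' p), Sg i f⟫_ℂ = if i = i' then ⟪dl p, f⟫_ℂ else 0 := by
  rw [inner_dl, inner_dl, Sg_apply, sf_eq]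

theorem Rr_Sg (i : Fin 2) (M N : ℕ) (x : HH →L[ℂ] HH) :
    Rr (M + 1) N (Sg i * x) = Sg i * Rr M N x + if i = 1 then Ee 0 N x else 0 := by
  rw [Rr_succ]
  have h1 : ∀ p, (∑ q ∈ Finset.range (2 ^ N),
        ⟪dl (em 0 p), (Sg i * x) (dl q)⟫_ℂ • (Ww (em 0 p) * star (Ww q)) +
       ∑ q ∈ Finset.range (2 ^ N),
        ⟪dl (em 1 p), (Sg i * x) (dl q)⟫_ℂ • (Ww (em 1 p) * star (Ww q))) =
      ∑ q ∈ Finset.range (2 ^ N), ⟪dl p, x (dl q)⟫_ℂ • (Ww (em i p) * star (Ww q)) := by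
    intro p
    have e : ∀ i' q, ⟪dl (em i' p), (Sg i * x) (dl q)⟫_ℂ =
        if i = i' then ⟪dl p, x (dl q)⟫_ℂ else 0 := fun i' q => inner_em_Sg i i' p _
    simp only [e]
    fin_cases i <;> simp
  rw [Finset.sum_congr rfl (fun p _ => h1 p)]
  simp only [row_em]
  rw [Finset.sum_add_distrib, ← Finset.mul_sum, sum_ite_zero M (i = 1)
    (fun p => ∑ q ∈ Finset.range (2 ^ N), ⟪dl p, x (dl q)⟫_ℂ • star (Ww q))]
  rfl

theorem Rr_starSg (i : Fin 2) (M N : ℕ) (x : HH →L[ℂ] HH) :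
    star (Sg i) * Rr (M + 1) N x = Rr M N (star (Sg i) * x) + star (Sg i) * Ee 1 N x := by
  have h1 : ∀ (i' : Fin 2) p, star (Sg i) * (∑ q ∈ Finset.range (2 ^ N),
        ⟪dl (em i' p), x (dl q)⟫_ℂ • (Ww (em i' p) * star (Ww q))) =
      (if i = i' then ∑ q ∈ Finset.range (2 ^ N),
        ⟪dl p, (star (Sg i) * x) (dl q)⟫_ℂ • (Ww p * star (Ww q)) else 0) +
      if p = 0 ∧ i' = 1 then star (Sg i) * Ee 1 N x else 0 := by
    intro i' p
    rw [row_em, mul_add, ← mul_assoc, star_Sg_mul]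
    congr 1
    · by_cases h : i = i'
      · subst h
        rw [if_pos rfl, if_pos rfl, one_mul]
        refine Finset.sum_congr rfl fun q _ => ?_
        congr 1
        show _ = ⟪dl p, star (Sg i) (x (dl q))⟫_ℂ
        rw [inner_dl, inner_dl, star_Sg_apply]
      · rw [if_neg h, if_neg h, zero_mul]
    · by_cases h : p = 0 ∧ i' = 1
      · rw [if_pos h, if_pos h]
        obtain ⟨rfl, rfl⟩ := h
        rfl
      · rw [if_neg h, if_neg h, mul_zero]
  have h2 : ∀ p, star (Sg i) * (∑ q ∈ Finset.range (2 ^ N),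
        ⟪dl (em 0 p), x (dl q)⟫_ℂ • (Ww (em 0 p) * star (Ww q)) +
       ∑ q ∈ Finset.range (2 ^ N), ⟪dl (em 1 p), x (dl q)⟫_ℂ • (Ww (em 1 p) * star (Ww q))) =
      ∑ q ∈ Finset.range (2 ^ N),
        ⟪dl p, (star (Sg i) * x) (dl q)⟫_ℂ • (Ww p * star (Ww q)) +
      if p = 0 ∧ True then star (Sg i) * Ee 1 N x else 0 := by
    intro p
    rw [mul_add, h1, h1]
    fin_cases i <;> simp
  rw [Rr_succ, Finset.mul_sum]
  simp only [h2]
  rw [Finset.sum_add_distrib, sum_ite_zero M True (fun _ => star (Sg i) * Ee 1 N x), if_pos trivial]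
  rfl

/-- approximation property of one operator -/
def Good (x : HH →L[ℂ] HH) : Prop :=
  ∃ C : ℝ, ∀ M N : ℕ, ‖Rr M N x - ((min M N : ℕ) : ℂ) • x‖ ≤ C

theorem Rr_add (M N : ℕ) (x y : HH →L[ℂ] HH) : Rr M N (x + y) = Rr M N x + Rr M N y := by
  unfold Rr
  rw [← Finset.sum_add_distrib]
  refine Finset.sum_congr rfl fun p _ => ?_
  rw [← Finset.sum_add_distrib]
  refine Finset.sum_congr rfl fun q _ => ?_
  rw [add_apply, inner_add_right, add_smul]

theorem Rr_smul (M N : ℕ) (c : ℂ) (x : HH →L[ℂ] HH) : Rr M N (c • x) = c • Rr M N x := by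
  unfold Rr
  rw [Finset.smul_sum]
  refine Finset.sum_congr rfl fun p _ => ?_
  rw [Finset.smul_sum]
  refine Finset.sum_congr rfl fun q _ => ?_
  rw [smul_apply, inner_smul_right, mul_smul]

theorem Good.add {x y : HH →L[ℂ] HH} (hx : Good x) (hy : Good y) : Good (x + y) := by
  obtain ⟨C, hC⟩ := hx
  obtain ⟨C', hC'⟩ := hy
  refine ⟨C + C', fun M N => ?_⟩
  rw [Rr_add, smul_add, add_sub_add_comm]
  exact (norm_add_le _ _).trans (add_le_add (hC M N) (hC' M N))

theorem Good.smul {x : HH →L[ℂ] HH} (hx : Good x) (c : ℂ) : Good (c • x) := by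
  obtain ⟨C, hC⟩ := hx
  refine ⟨‖c‖ * C, fun M N => ?_⟩
  rw [Rr_smul, smul_comm, ← smul_sub, norm_smul]
  exact mul_le_mul_of_nonneg_left (hC M N) (norm_nonneg _)

theorem inner_dl_dl (p q : ℕ) : ⟪dl p, dl q⟫_ℂ = if p = q then 1 else 0 := by
  rw [inner_dl, dl_apply]

theorem Good_one : Good 1 := by
  refine ⟨0, fun M N => ?_⟩
  have h1 : Rr M N 1 = ∑ p ∈ Finset.range (2 ^ (min M N)), Ww p * star (Ww p) := by
    unfold Rr
    have h2 : ∀ p, ∑ q ∈ Finset.range (2 ^ N),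
        ⟪dl p, (1 : HH →L[ℂ] HH) (dl q)⟫_ℂ • (Ww p * star (Ww q)) =
        if p < 2 ^ N then Ww p * star (Ww p) else 0 := by
      intro p
      have h3 : ∀ q, ⟪dl p, (1 : HH →L[ℂ] HH) (dl q)⟫_ℂ • (Ww p * star (Ww q)) =
          if q = p then Ww p * star (Ww q) else 0 := by
        intro q
        rw [one_apply_eq_self, inner_dl_dl]
        by_cases h : p = q
        · subst h; simp
        · rw [if_neg h, if_neg (Ne.symm h), zero_smul]
      simp only [h3]
      rw [Finset.sum_ite_eq' (Finset.range (2 ^ N)) p (fun q => Ww p * star (Ww q))]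
      simp only [Finset.mem_range]
    simp only [h2]
    rw [← Finset.sum_filter]
    congr 1
    ext p
    simp only [Finset.mem_filter, Finset.mem_range]
    rcases le_total M N with h | h
    · rw [min_eq_left h]
      have := Nat.pow_le_pow_right two_pos h
      omega
    · rw [min_eq_right h]
      have := Nat.pow_le_pow_right two_pos h
      omega
  rw [h1, sum_Ww, sub_self, norm_zero]

theorem norm_star' (x : HH →L[ℂ] HH) : ‖star x‖ = ‖x‖ := norm_star x

theorem norm_Sg_le (i : Fin 2) : ‖Sg i‖ ≤ 1 :=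
  ContinuousLinearMap.opNorm_le_bound _ zero_le_one fun f => by rw [norm_Sg, one_mul]

theorem norm_Ww_le (n : ℕ) : ‖Ww n‖ ≤ 1 := by
  induction n using Nat.strong_induction_on with
  | _ n ih =>
    obtain ⟨i, p, rfl⟩ := em_surj n
    by_cases hp : p = 0
    · subst hp
      fin_cases i
      · show ‖Ww (em 0 0)‖ ≤ 1
        rw [show em 0 0 = 0 from rfl, Ww_zero, norm_zero]
        exact zero_le_one
      · show ‖Ww (em 1 0)‖ ≤ 1
        rw [show em 1 0 = 1 from rfl, Ww_one]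
        exact ContinuousLinearMap.opNorm_le_bound _ zero_le_one fun f => by
          rw [one_mul]; rfl
    · rw [Ww_em i p hp]
      refine (norm_mul_le _ _).trans ?_
      have h1 := ih p (by unfold em; omega)
      have h2 := norm_Sg_le i
      nlinarith [norm_nonneg (Sg i), norm_nonneg (Ww p)]

/-- summable vectors -/
def L1 : Set HH := {f | Summable fun n => ‖f n‖}

theorem L1_dl (n : ℕ) : dl n ∈ L1 := by
  refine summable_of_ne_finset_zero (s := {n}) fun m hm => ?_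
  rw [dl_apply, if_neg (by simpa using hm), norm_zero]

theorem L1_Sg (i : Fin 2) {f : HH} (hf : f ∈ L1) : Sg i f ∈ L1 := by
  refine ((em_inj i).summable_iff (fun m hm => ?_)).1 ?_
  · rw [Sg_apply, sf_not i f m hm, norm_zero]
  · refine Summable.congr hf fun n => ?_
    rw [Function.comp_apply, Sg_apply, sf_em]

theorem L1_starSg (i : Fin 2) {f : HH} (hf : f ∈ L1) : star (Sg i) f ∈ L1 := by
  have hf' : Summable fun n => ‖f n‖ := hf
  have h1 : Summable fun n => ‖f (em i n)‖ := hf'.comp_injective (em_inj i)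
  refine h1.congr fun n => ?_
  rw [star_Sg_apply]

theorem L1_add {f g : HH} (hf : f ∈ L1) (hg : g ∈ L1) : f + g ∈ L1 := by
  refine Summable.of_nonneg_of_le (fun _ => norm_nonneg _) (fun n => ?_) (Summable.add hf hg)
  exact norm_add_le _ _

theorem L1_smul (c : ℂ) {f : HH} (hf : f ∈ L1) : c • f ∈ L1 := by
  refine (Summable.mul_left ‖c‖ hf).congr fun n => ?_
  exact (norm_mul c (f n)).symm

/-- the star algebra generated by the isometries -/
noncomputable def AA : StarSubalgebra ℂ (HH →L[ℂ] HH) := StarAlgebra.adjoin ℂ {Sg 0, Sg 1}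

theorem Sg_mem (i : Fin 2) : Sg i ∈ AA := by
  refine StarAlgebra.subset_adjoin ℂ _ ?_
  fin_cases i
  · exact Or.inl rfl
  · exact Or.inr rfl

theorem AA_induction {P : (HH →L[ℂ] HH) → Prop} (h1 : ∀ i, P (Sg i)) (h2 : ∀ i, P (star (Sg i)))
    (h3 : ∀ c : ℂ, P (c • 1)) (h4 : ∀ x ∈ AA, ∀ y ∈ AA, P x → P y → P (x + y))
    (h5 : ∀ x ∈ AA, ∀ y ∈ AA, P x → P y → P (x * y)) : ∀ x ∈ AA, P x := by
  have key : ∀ x ∈ AA, P x ∧ P (star x) := by
    intro x hx
    induction hx using StarAlgebra.adjoin_induction with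
    | mem x hx =>
      rcases hx with rfl | hx
      · exact ⟨h1 0, h2 0⟩
      · rw [Set.mem_singleton_iff] at hx
        subst hx
        exact ⟨h1 1, h2 1⟩
    | algebraMap r =>
      rw [Algebra.algebraMap_eq_smul_one, star_smul, star_one]
      exact ⟨h3 r, h3 _⟩
    | add x y hx hy ihx ihy =>
      rw [star_add]
      exact ⟨h4 x hx y hy ihx.1 ihy.1, h4 _ (star_mem hx) _ (star_mem hy) ihx.2 ihy.2⟩
    | mul x y hx hy ihx ihy =>
      rw [star_mul]
      exact ⟨h5 x hx y hy ihx.1 ihy.1, h5 _ (star_mem hy) _ (star_mem hx) ihy.2 ihx.2⟩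
    | star x hx ih =>
      rw [star_star]
      exact ⟨ih.2, ih.1⟩
  exact fun x hx => (key x hx).1

theorem AA_L1 : ∀ x ∈ AA, ∀ f ∈ L1, x f ∈ L1 := by
  refine AA_induction (P := fun x => ∀ f ∈ L1, x f ∈ L1) (fun i f hf => L1_Sg i hf)
    (fun i f hf => L1_starSg i hf) (fun c f hf => L1_smul c hf) ?_ ?_
  · intro x _ y _ hx hy f hf
    exact L1_add (hx f hf) (hy f hf)
  · intro x _ y _ hx hy f hf
    exact hx _ (hy f hf)

theorem Ee_bound (k : ℕ) {x : HH →L[ℂ] HH} (hx : x ∈ AA) : ∃ C : ℝ, ∀ N, ‖Ee k N x‖ ≤ C := by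
  have h1 : star x (dl k) ∈ L1 := AA_L1 _ (star_mem hx) _ (L1_dl k)
  refine ⟨∑' q, ‖(star x (dl k)) q‖, fun N => ?_⟩
  unfold Ee
  refine (norm_sum_le _ _).trans ?_
  refine le_trans ?_ (Summable.sum_le_tsum (Finset.range (2 ^ N)) (fun _ _ => norm_nonneg _) h1)
  refine Finset.sum_le_sum fun q _ => ?_
  rw [norm_smul]
  have h2 : ‖⟪dl k, x (dl q)⟫_ℂ‖ = ‖(star x (dl k)) q‖ := by
    rw [← inner_dl, ContinuousLinearMap.star_eq_adjoint, ContinuousLinearMap.adjoint_inner_right,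
      norm_inner_symm]
  rw [h2]
  refine mul_le_of_le_one_right (norm_nonneg _) ?_
  rw [norm_star']
  exact norm_Ww_le q

theorem Good.Sg_mul (i : Fin 2) {x : HH →L[ℂ] HH} (hx : x ∈ AA) (hg : Good x) :
    Good (Sg i * x) := by
  obtain ⟨C, hC⟩ := hg
  obtain ⟨C', hC'⟩ := Ee_bound 0 hx
  refine ⟨C + ‖Sg i * x‖ + C', fun M N => ?_⟩
  have hC0 : 0 ≤ C := (norm_nonneg _).trans (hC 0 0)
  have hC0' : 0 ≤ C' := (norm_nonneg _).trans (hC' 0)
  rcases M with _ | M
  · have h1 : Rr 0 N (Sg i * x) = 0 := by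
      unfold Rr
      rw [pow_zero, Finset.sum_range_one, Ww_zero]
      simp
    rw [h1]
    simp
    positivity
  · rw [Rr_Sg]
    have e : Sg i * Rr M N x + (if i = 1 then Ee 0 N x else 0) -
        ((min (M + 1) N : ℕ) : ℂ) • (Sg i * x) =
        Sg i * (Rr M N x - ((min M N : ℕ) : ℂ) • x) +
        (((min M N : ℕ) : ℂ) - ((min (M + 1) N : ℕ) : ℂ)) • (Sg i * x) +
        (if i = 1 then Ee 0 N x else 0) := by
      rw [mul_sub, mul_smul_comm, sub_smul]
      abel
    rw [e]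
    have h1 : ‖Sg i * (Rr M N x - ((min M N : ℕ) : ℂ) • x)‖ ≤ C := by
      refine (norm_mul_le _ _).trans ?_
      refine le_trans (mul_le_of_le_one_left (norm_nonneg _) (norm_Sg_le i)) (hC M N)
    have h2 : ‖(((min M N : ℕ) : ℂ) - ((min (M + 1) N : ℕ) : ℂ))‖ ≤ 1 := by
      rcases le_or_gt (M + 1) N with h | h
      · rw [min_eq_left h, min_eq_left (by omega)]
        push_cast
        rw [show ((M : ℂ) - ((M : ℂ) + 1)) = -1 by ring]
        simp
      · rw [min_eq_right (by omega : N ≤ M + 1), min_eq_right (by omega : N ≤ M), sub_self,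
          norm_zero]
        exact zero_le_one
    have h3 : ‖(((min M N : ℕ) : ℂ) - ((min (M + 1) N : ℕ) : ℂ)) • (Sg i * x)‖ ≤ ‖Sg i * x‖ := by
      rw [norm_smul]
      exact mul_le_of_le_one_left (norm_nonneg _) h2
    have h4 : ‖(if i = 1 then Ee 0 N x else 0)‖ ≤ C' := by
      split_ifs
      · exact hC' N
      · rw [norm_zero]; exact hC0'
    refine (norm_add_le _ _).trans (add_le_add ((norm_add_le _ _).trans (add_le_add h1 h3)) h4)

theorem Good.starSg_mul (i : Fin 2) {x : HH →L[ℂ] HH} (hx : x ∈ AA) (hg : Good x) :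
    Good (star (Sg i) * x) := by
  obtain ⟨C, hC⟩ := hg
  obtain ⟨C', hC'⟩ := Ee_bound 1 hx
  have hn : ‖star (Sg i)‖ ≤ 1 := by rw [norm_star']; exact norm_Sg_le i
  refine ⟨C + ‖star (Sg i) * x‖ + C', fun M N => ?_⟩
  have e0 : Rr M N (star (Sg i) * x) = star (Sg i) * Rr (M + 1) N x - star (Sg i) * Ee 1 N x := by
    rw [Rr_starSg, add_sub_cancel_right]
  have e : Rr M N (star (Sg i) * x) - ((min M N : ℕ) : ℂ) • (star (Sg i) * x) =
      star (Sg i) * (Rr (M + 1) N x - ((min (M + 1) N : ℕ) : ℂ) • x) +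
      (((min (M + 1) N : ℕ) : ℂ) - ((min M N : ℕ) : ℂ)) • (star (Sg i) * x) -
      star (Sg i) * Ee 1 N x := by
    rw [e0, mul_sub, mul_smul_comm, sub_smul]
    abel
  rw [e]
  have h1 : ‖star (Sg i) * (Rr (M + 1) N x - ((min (M + 1) N : ℕ) : ℂ) • x)‖ ≤ C := by
    refine (norm_mul_le _ _).trans ?_
    refine le_trans (mul_le_of_le_one_left (norm_nonneg _) hn) (hC (M + 1) N)
  have h2 : ‖(((min (M + 1) N : ℕ) : ℂ) - ((min M N : ℕ) : ℂ))‖ ≤ 1 := by
    rcases le_or_gt (M + 1) N with h | h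
    · rw [min_eq_left h, min_eq_left (by omega)]
      push_cast
      rw [show ((M : ℂ) + 1 - (M : ℂ)) = 1 by ring]
      simp
    · rw [min_eq_right (by omega : N ≤ M + 1), min_eq_right (by omega : N ≤ M), sub_self,
        norm_zero]
      exact zero_le_one
  have h3 : ‖(((min (M + 1) N : ℕ) : ℂ) - ((min M N : ℕ) : ℂ)) • (star (Sg i) * x)‖ ≤
      ‖star (Sg i) * x‖ := by
    rw [norm_smul]
    exact mul_le_of_le_one_left (norm_nonneg _) h2
  have h4 : ‖star (Sg i) * Ee 1 N x‖ ≤ C' := by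
    refine (norm_mul_le _ _).trans ?_
    exact le_trans (mul_le_of_le_one_left (norm_nonneg _) hn) (hC' N)
  refine (norm_sub_le _ _).trans (add_le_add ((norm_add_le _ _).trans (add_le_add h1 h3)) h4)

theorem AA_good : ∀ a ∈ AA, Good a := by
  have key : ∀ a ∈ AA, ∀ x ∈ AA, Good x → Good (a * x) := by
    refine AA_induction (P := fun a => ∀ x ∈ AA, Good x → Good (a * x))
      (fun i x hx hg => hg.Sg_mul i hx) (fun i x hx hg => hg.starSg_mul i hx) ?_ ?_ ?_
    · intro c x _ hg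
      rw [smul_mul_assoc, one_mul]
      exact hg.smul c
    · intro a _ b _ ha hb x hx hg
      rw [add_mul]
      exact (ha x hx hg).add (hb x hx hg)
    · intro a _ b hbA ha hb x hx hg
      rw [mul_assoc]
      exact ha _ (mul_mem hbA hx) (hb x hx hg)
  intro a ha
  have := key a ha 1 (one_mem _) Good_one
  rwa [mul_one] at this

end Pool.Agent.H231R3.TI
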