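import Mathlib

set_option autoImplicit false

namespace Pool.Agent.H231R3.TI

universe u v

/-- `φ` is a unital completely positive map between unital star algebras (C*-algebras): it is
linear, `φ 1 = 1`, and applied entrywise it maps every positive `k × k` matrix (a matrix of the form
`aᴴ a`) to a positive matrix. -/
def IsUcp {A : Type u} {B : Type v} [Ring A] [StarRing A] [Algebra ℂ A] [Ring B] [StarRing B]
    [Algebra ℂ B] (φ : A →ₗ[ℂ] B) : Prop :=
  φ 1 = 1 ∧ ∀ (k : ℕ) (a : Matrix (Fin k) (Fin k) A), ∃ b : Matrix (Fin k) (Fin k) B,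
    (a.conjTranspose * a).map φ = b.conjTranspose * b

/-- The unital C*-algebra `A` is nuclear: it has the completely positive approximation property,
that is, the identity map of `A` is a point-norm limit of compositions `A → M_ι(ℂ) → A` of unital
completely positive maps, with `ι` finite. -/
def IsNuclear (A : Type u) [CStarAlgebra A] : Prop :=
  ∀ (F : Finset A) (ε : ℝ), 0 < ε → ∃ (ι : Type) (_ : Fintype ι) (_ : DecidableEq ι)
    (φ : A →ₗ[ℂ] Matrix ι ι ℂ) (ψ : Matrix ι ι ℂ →ₗ[ℂ] A),
    IsUcp φ ∧ IsUcp ψ ∧ ∀ a ∈ F, ‖ψ (φ a) - a‖ < ε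

/-- The unital C*-algebra `A` is stably finite: in every matrix algebra `M_n(A)`, every isometry
`v` (`v* v = 1`) is a unitary (`v v* = 1`). -/
def IsStablyFinite (A : Type u) [CStarAlgebra A] : Prop :=
  ∀ (n : ℕ) (v : Matrix (Fin n) (Fin n) A), v.conjTranspose * v = 1 → v * v.conjTranspose = 1

section rep

variable {B : Type u} [NonUnitalRing B] [StarRing B] [Module ℂ B] {H : Type v}
  [NormedAddCommGroup H] [InnerProductSpace ℂ H] [CompleteSpace H]

/-- The representation `π` of `B` on the Hilbert space `H` is irreducible: it is not zero and no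
closed subspace other than `0` and `H` is invariant. -/
structure IsIrreducible (π : B →⋆ₙₐ[ℂ] (H →L[ℂ] H)) : Prop where
  nonzero : ∃ b, π b ≠ 0
  invariant : ∀ K : Submodule ℂ H, IsClosed (K : Set H) → (∀ b, ∀ x ∈ K, π b x ∈ K) →
    K = ⊥ ∨ K = ⊤

end rep

/-- The C*-algebra `B` is type I: the image of every irreducible representation on a Hilbert space
`H` contains all compact operators on `H`. -/
def IsTypeI (B : Type u) [NonUnitalRing B] [StarRing B] [Module ℂ B] : Prop :=
  ∀ (H : Type u) [NormedAddCommGroup H] [InnerProductSpace ℂ H] [CompleteSpace H]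
    (π : B →⋆ₙₐ[ℂ] (H →L[ℂ] H)), IsIrreducible π →
    ∀ T : H →L[ℂ] H, IsCompactOperator T → ∃ b, π b = T

/-- `A` is locally approximable by type I C*-algebras: for every finite set `F` in `A` and every
`ε > 0` there is a type I C*-subalgebra `B` of `A` (a norm closed star subalgebra, not necessarily
unital) at distance less than `ε` from every element of `F`. -/
def LocallyTypeI (A : Type u) [CStarAlgebra A] : Prop :=
  ∀ (F : Finset A) (ε : ℝ), 0 < ε → ∃ B : NonUnitalStarSubalgebra ℂ A,
    IsClosed (B : Set A) ∧ IsTypeI B ∧ ∀ x ∈ F, ∃ b ∈ B, ‖x - b‖ < ε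

/-- There is a separable, nuclear, stably finite unital C*-algebra that is not locally approximable
by type I C*-algebras. -/
def Counterexample : Prop :=
  ∃ (A : Type) (_ : CStarAlgebra A), TopologicalSpace.SeparableSpace A ∧ IsNuclear A ∧
    IsStablyFinite A ∧ ¬ LocallyTypeI A

end Pool.Agent.H231R3.TI
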