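import Mathlib
import Pool.Agent.H231R3.TI.Defs

set_option autoImplicit false

open scoped InnerProductSpace ComplexOrder Topology
open Filter

namespace Pool.Agent.H231R3.TI

universe u v w

section squares

theorem exists_sq_sum_aux {A : Type u} [NonUnitalCStarAlgebra A] {ι : Type*} (s : Finset ι)
    (c : ι → A) : ∃ b : A, ∑ i ∈ s, star (c i) * c i = star b * b := by
  let _ : PartialOrder A := CStarAlgebra.spectralOrder A
  have _ : StarOrderedRing A := CStarAlgebra.spectralOrderedRing A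
  have h : 0 ≤ ∑ i ∈ s, star (c i) * c i := Finset.sum_nonneg fun i _ => star_mul_self_nonneg (c i)
  rw [CStarAlgebra.nonneg_iff_eq_star_mul_self] at h
  exact h

theorem exists_sq_sum {R : Type u} [CStarAlgebra R] {ι : Type*} (s : Finset ι) {k : ℕ}
    (c : ι → Matrix (Fin k) (Fin k) R) :
    ∃ b : Matrix (Fin k) (Fin k) R,
      ∑ i ∈ s, (c i).conjTranspose * c i = b.conjTranspose * b := by
  let _ : PartialOrder R := CStarAlgebra.spectralOrder R
  have _ : StarOrderedRing R := CStarAlgebra.spectralOrderedRing R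
  obtain ⟨b, hb⟩ := exists_sq_sum_aux (A := CStarMatrix (Fin k) (Fin k) R) s
    (fun i => CStarMatrix.ofMatrix (c i))
  refine ⟨CStarMatrix.ofMatrix.symm b, ?_⟩
  rw [← CStarMatrix.ofMatrix.symm_apply_apply (∑ i ∈ s, (c i).conjTranspose * c i)]
  exact congrArg CStarMatrix.ofMatrix.symm hb

end squares

section comp

variable {A : Type u} {B : Type v} {C : Type w} [Ring A] [StarRing A] [Algebra ℂ A] [Ring B]
  [StarRing B] [Algebra ℂ B] [Ring C] [StarRing C] [Algebra ℂ C]

theorem IsUcp.comp {φ : B →ₗ[ℂ] C} {ψ : A →ₗ[ℂ] B} (h : IsUcp φ) (h' : IsUcp ψ) :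
    IsUcp (φ ∘ₗ ψ) := by
  refine ⟨by rw [LinearMap.comp_apply, h'.1, h.1], fun k a => ?_⟩
  obtain ⟨b, hb⟩ := h'.2 k a
  obtain ⟨c, hc⟩ := h.2 k b
  refine ⟨c, ?_⟩
  rw [← hc, ← hb, Matrix.map_map]
  rfl

theorem exists_sq_of_posSemidef {κ : Type*} [Fintype κ] [DecidableEq κ] {M : Matrix κ κ ℂ}
    (h : M.PosSemidef) : ∃ b : Matrix κ κ ℂ, M = b.conjTranspose * b := by
  open scoped MatrixOrder Matrix.Norms.L2Operator in
  exact CStarAlgebra.nonneg_iff_eq_star_mul_self.1 h.nonneg

/-- criterion for maps into matrix algebras -/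
theorem isUcp_of_posSemidef {κ : Type*} [Fintype κ] [DecidableEq κ] (φ : A →ₗ[ℂ] Matrix κ κ ℂ)
    (h1 : φ 1 = 1) (h : ∀ (k : ℕ) (a : Matrix (Fin k) (Fin k) A),
      (Matrix.of fun x y : Fin k × κ =>
        φ ((a.conjTranspose * a) x.1 y.1) x.2 y.2).PosSemidef) : IsUcp φ := by
  refine ⟨h1, fun k a => ?_⟩
  obtain ⟨b, hb⟩ := exists_sq_of_posSemidef (h k a)
  refine ⟨Matrix.of fun r s => Matrix.of fun p q => b (r, p) (s, q), ?_⟩
  ext r s p q
  have h2 := congrFun (congrFun hb (r, p)) (s, q)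
  rw [Matrix.of_apply] at h2
  refine Eq.trans h2 ?_
  rw [Matrix.mul_apply, Fintype.sum_prod_type, Matrix.mul_apply, Matrix.sum_apply]
  refine Finset.sum_congr rfl fun l _ => ?_
  rw [Matrix.mul_apply]
  rfl

end comp

section factor

variable {A : Type u} [CStarAlgebra A] {ι : Type*} [Fintype ι]

/-- the map `M ↦ ∑ M_pq W_p W_q*` -/
noncomputable def fromW (W : ι → A) : Matrix ι ι ℂ →ₗ[ℂ] A where
  toFun M := ∑ p, ∑ q, M p q • (W p * star (W q))
  map_add' M M' := by
    simp only [Matrix.add_apply, add_smul, Finset.sum_add_distrib]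
  map_smul' c M := by
    simp only [Matrix.smul_apply, smul_eq_mul, mul_smul, Finset.smul_sum, RingHom.id_apply]

theorem fromW_apply (W : ι → A) (M : Matrix ι ι ℂ) :
    fromW W M = ∑ p, ∑ q, M p q • (W p * star (W q)) := rfl

theorem isUcp_fromW [DecidableEq ι] (W : ι → A) (hW : ∑ p, W p * star (W p) = 1) : IsUcp (fromW W) := by
  constructor
  · rw [fromW_apply, ← hW]
    refine Finset.sum_congr rfl fun p _ => ?_
    rw [Finset.sum_eq_single p]
    · rw [Matrix.one_apply_eq, one_smul]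
    · intro q _ hq
      rw [Matrix.one_apply_ne hq.symm, zero_smul]
    · intro h
      exact absurd (Finset.mem_univ p) h
  · intro k a
    obtain ⟨b, hb⟩ := exists_sq_sum (R := A) (Finset.univ : Finset ι)
      (fun t => (Matrix.of fun l r => ∑ p, (a l r) t p • star (W p) : Matrix (Fin k) (Fin k) A))
    refine ⟨b, ?_⟩
    rw [← hb]
    ext r s
    rw [Matrix.map_apply, Matrix.sum_apply, Matrix.mul_apply, fromW_apply]
    have e1 : ∀ t, (((Matrix.of fun l r => ∑ p, (a l r) t p • star (W p) :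
        Matrix (Fin k) (Fin k) A)).conjTranspose *
        (Matrix.of fun l r => ∑ p, (a l r) t p • star (W p) : Matrix (Fin k) (Fin k) A)) r s =
        ∑ l, ∑ p, ∑ q, (star ((a l r) t p) * (a l s) t q) • (W p * star (W q)) := by
      intro t
      rw [Matrix.mul_apply]
      refine Finset.sum_congr rfl fun l _ => ?_
      rw [Matrix.conjTranspose_apply, Matrix.of_apply, Matrix.of_apply, star_sum,
        Finset.sum_mul_sum]
      refine Finset.sum_congr rfl fun p _ => Finset.sum_congr rfl fun q _ => ?_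
      rw [star_smul, star_star, smul_mul_smul_comm]
    simp only [e1]
    have e2 : ∀ p q, (∑ l, (a.conjTranspose r l * a l s)) p q =
        ∑ l, ∑ t, star ((a l r) t p) * (a l s) t q := by
      intro p q
      rw [Matrix.sum_apply]
      refine Finset.sum_congr rfl fun l _ => ?_
      rw [Matrix.mul_apply]
      rfl
    simp only [e2, Finset.sum_smul]
    calc ∑ p, ∑ q, ∑ l, ∑ t, (star ((a l r) t p) * (a l s) t q) • (W p * star (W q))
        = ∑ p, ∑ q, ∑ t, ∑ l, (star ((a l r) t p) * (a l s) t q) • (W p * star (W q)) := by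
          refine Finset.sum_congr rfl fun p _ => Finset.sum_congr rfl fun q _ => ?_
          exact Finset.sum_comm
      _ = ∑ p, ∑ t, ∑ q, ∑ l, (star ((a l r) t p) * (a l s) t q) • (W p * star (W q)) := by
          refine Finset.sum_congr rfl fun p _ => ?_
          exact Finset.sum_comm
      _ = ∑ t, ∑ p, ∑ q, ∑ l, (star ((a l r) t p) * (a l s) t q) • (W p * star (W q)) :=
          Finset.sum_comm
      _ = ∑ t, ∑ p, ∑ l, ∑ q, (star ((a l r) t p) * (a l s) t q) • (W p * star (W q)) := by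
          refine Finset.sum_congr rfl fun t _ => Finset.sum_congr rfl fun p _ => ?_
          exact Finset.sum_comm
      _ = ∑ t, ∑ l, ∑ p, ∑ q, (star ((a l r) t p) * (a l s) t q) • (W p * star (W q)) := by
          refine Finset.sum_congr rfl fun t _ => ?_
          exact Finset.sum_comm

/-- a ucp map is bounded -/
theorem IsUcp.norm_le {T : A →ₗ[ℂ] A} (h : IsUcp T) (x : A) : ‖T x‖ ≤ 4 * ‖x‖ := by
  let _ : PartialOrder A := CStarAlgebra.spectralOrder A
  have _ : StarOrderedRing A := CStarAlgebra.spectralOrderedRing A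
  have hpos : ∀ y : A, 0 ≤ y → 0 ≤ T y := by
    intro y hy
    rw [CStarAlgebra.nonneg_iff_eq_star_mul_self] at hy
    obtain ⟨c, rfl⟩ := hy
    obtain ⟨b, hb⟩ := h.2 1 (Matrix.of fun _ _ => c)
    have h1 := congrFun (congrFun hb 0) 0
    rw [Matrix.map_apply, Matrix.mul_apply, Matrix.mul_apply, Fin.sum_univ_one,
      Fin.sum_univ_one] at h1
    change T (star c * c) = star (b 0 0) * b 0 0 at h1
    rw [h1]
    exact star_mul_self_nonneg _
  let f : A →ₚ[ℂ] A := PositiveLinearMap.mk₀ T hpos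
  have hf : ∀ y, f y = T y := fun y => rfl
  obtain ⟨y, hy0, hy1, hy2⟩ := CStarAlgebra.exists_sum_four_nonneg x
  have h2 : ∀ i, ‖T (y i)‖ ≤ ‖x‖ := by
    intro i
    have h3 := PositiveLinearMap.norm_apply_le_of_nonneg f (y i) (hy0 i)
    rw [hf, hf, h.1] at h3
    rcases subsingleton_or_nontrivial A with hs | hs
    · rw [Subsingleton.elim (T (y i)) 0, norm_zero]
      exact norm_nonneg _
    · rw [norm_one, one_mul] at h3
      exact h3.trans (hy1 i)
  have h3 : T x = ∑ i : Fin 4, Complex.I ^ (i : ℕ) • T (y i) := by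
    conv_lhs => rw [hy2]
    rw [map_sum]
    refine Finset.sum_congr rfl fun i _ => ?_
    rw [map_smul]
  rw [h3]
  refine (norm_sum_le _ _).trans ?_
  have h4 : ∀ i ∈ (Finset.univ : Finset (Fin 4)), ‖Complex.I ^ (i : ℕ) • T (y i)‖ ≤ ‖x‖ := by
    intro i _
    rw [norm_smul, norm_pow, Complex.norm_I, one_pow, one_mul]
    exact h2 i
  refine (Finset.sum_le_sum h4).trans ?_
  simp

end factor

end Pool.Agent.H231R3.TI
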