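import Mathlib
import Pool.Agent.H231R3.TI.Ucp

set_option autoImplicit false
set_option linter.unusedSectionVars false

open scoped InnerProductSpace ComplexOrder Topology unitInterval
open Filter

namespace Pool.Agent.H231R3.TI

universe u v w

section blocks

variable {A : Type u} {B : Type v} [Ring A] [StarRing A] [Algebra ℂ A] [Ring B]
  [StarRing B] [Algebra ℂ B]

theorem isUcp_starHom (π : A →⋆ₐ[ℂ] B) : IsUcp (π : A →ₗ[ℂ] B) := by
  refine ⟨map_one π, fun k a => ⟨a.map π, ?_⟩⟩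
  ext r s
  rw [Matrix.map_apply, Matrix.mul_apply, Matrix.mul_apply]
  show π (∑ l, a.conjTranspose r l * a l s) = _
  rw [map_sum]
  refine Finset.sum_congr rfl fun l _ => ?_
  rw [map_mul, Matrix.conjTranspose_apply, map_star]
  rfl

variable {ι J : Type} [Fintype ι] [DecidableEq ι] [Fintype J] [DecidableEq J]

/-- compression to a block -/
noncomputable def cmp (k : J) : Matrix (ι × J) (ι × J) ℂ →ₗ[ℂ] Matrix ι ι ℂ where
  toFun M := Matrix.of fun p q => M (p, k) (q, k)
  map_add' _ _ := rfl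
  map_smul' _ _ := rfl

omit [Fintype ι] [DecidableEq ι] [Fintype J] [DecidableEq J] in
theorem cmp_apply (k : J) (M : Matrix (ι × J) (ι × J) ℂ) (p q : ι) :
    cmp k M p q = M (p, k) (q, k) := rfl

theorem isUcp_cmp (k : J) : IsUcp (cmp (ι := ι) k) := by
  refine isUcp_of_posSemidef _ ?_ ?_
  · ext p q
    rw [cmp_apply, Matrix.one_apply, Matrix.one_apply]
    simp
  · intro m a
    have h := Matrix.posSemidef_conjTranspose_mul_self
      (Matrix.of fun (z : Fin m × (ι × J)) (y : Fin m × ι) => a z.1 y.1 z.2 (y.2, k))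
    refine (congrArg Matrix.PosSemidef ?_).mp h
    ext x y
    rw [Matrix.of_apply, cmp_apply, Matrix.mul_apply, Matrix.mul_apply, Matrix.sum_apply,
      Fintype.sum_prod_type]
    refine Finset.sum_congr rfl fun l _ => ?_
    rw [Matrix.mul_apply]
    rfl

/-- direct sum of maps into matrix algebras -/
noncomputable def bdm (θ : J → (A →ₗ[ℂ] Matrix ι ι ℂ)) :
    A →ₗ[ℂ] Matrix (ι × J) (ι × J) ℂ where
  toFun f := Matrix.blockDiagonal fun k => θ k f
  map_add' f g := by
    rw [← Matrix.blockDiagonal_add]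
    congr 1
    funext k
    exact map_add _ _ _
  map_smul' c f := by
    rw [RingHom.id_apply, ← Matrix.blockDiagonal_smul]
    congr 1
    funext k
    exact map_smul _ _ _

theorem bdm_apply (θ : J → (A →ₗ[ℂ] Matrix ι ι ℂ)) (f : A) :
    bdm θ f = Matrix.blockDiagonal fun k => θ k f := rfl

theorem isUcp_bdm (θ : J → (A →ₗ[ℂ] Matrix ι ι ℂ)) (h : ∀ k, IsUcp (θ k)) : IsUcp (bdm θ) := by
  constructor
  · rw [bdm_apply]
    simp only [(h _).1]
    exact Matrix.blockDiagonal_one
  · intro m a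
    choose b hb using fun k => (h k).2 m a
    set B : Matrix (Fin m) (Fin m) (Matrix (ι × J) (ι × J) ℂ) :=
      Matrix.of fun r s => Matrix.blockDiagonal fun k => b k r s with hB
    have h1 : ∀ r s l, B.conjTranspose r l * B l s =
        Matrix.blockDiagonal fun k => (b k l r).conjTranspose * b k l s := by
      intro r s l
      rw [Matrix.conjTranspose_apply, hB, Matrix.of_apply, Matrix.of_apply,
        Matrix.star_eq_conjTranspose, Matrix.blockDiagonal_conjTranspose, Matrix.blockDiagonal_mul]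
    refine ⟨B, Matrix.ext fun r s => Matrix.ext fun x y => ?_⟩
    have h0 : (B.conjTranspose * B) r s =
        ∑ l, Matrix.blockDiagonal fun k => (b k l r).conjTranspose * b k l s := by
      rw [Matrix.mul_apply]
      exact Finset.sum_congr rfl fun l _ => h1 r s l
    rw [Matrix.map_apply, bdm_apply, h0, Matrix.sum_apply]
    simp only [Matrix.blockDiagonal_apply]
    split_ifs with hxy
    · have h2 := congrFun (congrFun (congrFun (congrFun (hb x.2) r) s) x.1) y.1
      rw [Matrix.map_apply] at h2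
      rw [h2, Matrix.mul_apply, Matrix.sum_apply]
      rfl
    · rw [Finset.sum_const_zero]

end blocks

section cone

variable (D : Type) [CStarAlgebra D]

variable {D} in
/-- evaluation of continuous functions -/
noncomputable def evI (x : I) : C(I, D) →⋆ₐ[ℂ] D where
  toFun f := f x
  map_one' := rfl
  map_mul' _ _ := rfl
  map_zero' := rfl
  map_add' _ _ := rfl
  commutes' _ := rfl
  map_star' _ := rfl

/-- continuous functions on `[0,1]` with values in `D` that have a scalar value at `0` -/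
noncomputable def coneSub : StarSubalgebra ℂ C(I, D) :=
  (⊥ : StarSubalgebra ℂ D).comap (evI (0 : I))

theorem mem_coneSub {f : C(I, D)} : f ∈ coneSub D ↔ ∃ c : ℂ, algebraMap ℂ D c = f 0 := by
  unfold coneSub
  rw [StarSubalgebra.mem_comap, StarSubalgebra.mem_bot]
  rfl

variable [Nontrivial D]

theorem isClosed_coneSub : IsClosed (coneSub D : Set C(I, D)) := by
  have h1 : (coneSub D : Set C(I, D)) = (fun f : C(I, D) => f 0) ⁻¹' Set.range (algebraMap ℂ D) := by
    ext f
    exact mem_coneSub D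
  rw [h1]
  refine IsClosed.preimage (continuous_eval_const (0 : I)) ?_
  exact (algebraMap_isometry ℂ D).isClosedEmbedding.isClosed_range

/-- the unitized cone -/
abbrev Cn : Type := coneSub D

noncomputable instance : CStarAlgebra (Cn D) :=
  StarSubalgebra.cstarAlgebra (h_closed := isClosed_coneSub D) (coneSub D)

variable {D}

/-- evaluation -/
noncomputable def evc (x : I) : Cn D →⋆ₐ[ℂ] D :=
  (evI x).comp (coneSub D).subtype

theorem evc_apply (x : I) (f : Cn D) : evc x f = f.1 x := rfl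

theorem norm_cn_le {f : Cn D} {r : ℝ} (hr : 0 ≤ r) (h : ∀ x, ‖evc x f‖ ≤ r) : ‖f‖ ≤ r :=
  (ContinuousMap.norm_le f.1 hr).2 h

theorem norm_evc_le (x : I) (f : Cn D) : ‖evc x f‖ ≤ ‖f‖ := f.1.norm_coe_le_norm x

theorem cn_ext {f g : Cn D} (h : ∀ x, evc x f = evc x g) : f = g :=
  Subtype.ext (ContinuousMap.ext h)

/-- multiplication of a constant by a real function, when the result is in the cone -/
noncomputable def mkc (b : C(I, ℝ)) (d : D) (h : b 0 = 0 ∨ ∃ c : ℂ, algebraMap ℂ D c = d) : Cn D :=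
  ⟨⟨fun x => b x • d, by fun_prop⟩, by
    rw [mem_coneSub]
    rcases h with h | ⟨c, hc⟩
    · refine ⟨0, ?_⟩
      show algebraMap ℂ D 0 = b 0 • d
      rw [h, zero_smul, map_zero]
    · refine ⟨(b 0 : ℂ) * c, ?_⟩
      show _ = b 0 • d
      rw [← hc, Algebra.algebraMap_eq_smul_one, Algebra.algebraMap_eq_smul_one, mul_smul,
        Complex.coe_smul]⟩

theorem evc_mkc (b : C(I, ℝ)) (d : D) (h) (x : I) : evc x (mkc b d h) = b x • d := rfl

variable {ι : Type} [Fintype ι] [DecidableEq ι]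

/-- the block maps -/
noncomputable def chi (ψ : Matrix ι ι ℂ →ₗ[ℂ] D) (p₀ : ι) {n : ℕ} (k : Fin (n + 1)) :
    Matrix ι ι ℂ →ₗ[ℂ] D :=
  if k = 0 then (Algebra.linearMap ℂ D) ∘ₗ
    { toFun := fun M => M p₀ p₀, map_add' := fun _ _ => rfl, map_smul' := fun _ _ => rfl }
  else ψ

omit [Nontrivial D] [Fintype ι] [DecidableEq ι] in
theorem chi_zero (ψ : Matrix ι ι ℂ →ₗ[ℂ] D) (p₀ : ι) (n : ℕ) (M : Matrix ι ι ℂ) :
    chi ψ p₀ (0 : Fin (n + 1)) M = algebraMap ℂ D (M p₀ p₀) := by
  unfold chi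
  rw [if_pos rfl]
  rfl

omit [Nontrivial D] [Fintype ι] [DecidableEq ι] in
theorem chi_ne (ψ : Matrix ι ι ℂ →ₗ[ℂ] D) (p₀ : ι) {n : ℕ} {k : Fin (n + 1)} (hk : k ≠ 0)
    (M : Matrix ι ι ℂ) : chi ψ p₀ k M = ψ M := by
  unfold chi
  rw [if_neg hk]

omit [Nontrivial D] in
theorem chi_sq (ψ : Matrix ι ι ℂ →ₗ[ℂ] D) (hψ : IsUcp ψ) (p₀ : ι) {n : ℕ} (k : Fin (n + 1))
    (m : ℕ) (a : Matrix (Fin m) (Fin m) (Matrix ι ι ℂ)) :
    ∃ b : Matrix (Fin m) (Fin m) D, (a.conjTranspose * a).map (chi ψ p₀ k) =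
      b.conjTranspose * b ∧ (k = 0 → ∀ r s, ∃ c : ℂ, algebraMap ℂ D c = b r s) := by
  by_cases hk : k = 0
  · subst hk
    have h := Matrix.posSemidef_conjTranspose_mul_self
      (Matrix.of fun (z : Fin m × ι) (y : Fin m) => a z.1 y z.2 p₀)
    obtain ⟨b, hb⟩ := exists_sq_of_posSemidef h
    refine ⟨b.map (algebraMap ℂ D), ?_, fun _ r s => ⟨b r s, rfl⟩⟩
    ext r s
    have h1 := congrFun (congrFun hb r) s
    rw [Matrix.map_apply, chi_zero]
    have h2 : ((a.conjTranspose * a) r s) p₀ p₀ = (b.conjTranspose * b) r s := by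
      rw [← h1, Matrix.mul_apply, Matrix.mul_apply, Matrix.sum_apply, Fintype.sum_prod_type]
      refine Finset.sum_congr rfl fun l _ => ?_
      rw [Matrix.mul_apply]
      rfl
    rw [h2, Matrix.mul_apply, Matrix.mul_apply, map_sum]
    refine Finset.sum_congr rfl fun l _ => ?_
    rw [map_mul, Matrix.conjTranspose_apply, Matrix.conjTranspose_apply, Matrix.map_apply,
      Matrix.map_apply]
    congr 1
    exact algebraMap_star_comm _
  · obtain ⟨b, hb⟩ := hψ.2 m a
    refine ⟨b, ?_, fun h => absurd h hk⟩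
    rw [← hb]
    ext r s
    rw [Matrix.map_apply, Matrix.map_apply, chi_ne ψ p₀ hk]

theorem chi_mem (ψ : Matrix ι ι ℂ →ₗ[ℂ] D) (p₀ : ι) {n : ℕ} (k : Fin (n + 1)) (M : Matrix ι ι ℂ) :
    bernstein n k 0 = 0 ∨ ∃ c : ℂ, algebraMap ℂ D c = chi ψ p₀ k M := by
  by_cases hk : k = 0
  · subst hk
    exact Or.inr ⟨M p₀ p₀, (chi_zero ψ p₀ n M).symm⟩
  · left
    have h1 : (k : ℕ) ≠ 0 := fun h => hk (Fin.ext h)
    simp [bernstein_apply, h1]

/-- the synthesis map of the cone -/
noncomputable def Psi (ψ : Matrix ι ι ℂ →ₗ[ℂ] D) (p₀ : ι) (n : ℕ) :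
    Matrix (ι × Fin (n + 1)) (ι × Fin (n + 1)) ℂ →ₗ[ℂ] Cn D where
  toFun M := ∑ k : Fin (n + 1), mkc (bernstein n k) (chi ψ p₀ k (cmp k M)) (chi_mem ψ p₀ k _)
  map_add' M M' := by
    rw [← Finset.sum_add_distrib]
    refine Finset.sum_congr rfl fun k _ => ?_
    apply cn_ext
    intro x
    rw [map_add (evc x), evc_mkc, evc_mkc, evc_mkc, map_add (cmp k), map_add (chi ψ p₀ k),
      smul_add]
  map_smul' c M := by
    rw [RingHom.id_apply, Finset.smul_sum]
    refine Finset.sum_congr rfl fun k _ => ?_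
    apply cn_ext
    intro x
    rw [map_smul (evc x), evc_mkc, evc_mkc, map_smul (cmp k), map_smul (chi ψ p₀ k), smul_comm]

theorem evc_Psi (ψ : Matrix ι ι ℂ →ₗ[ℂ] D) (p₀ : ι) (n : ℕ)
    (M : Matrix (ι × Fin (n + 1)) (ι × Fin (n + 1)) ℂ) (x : I) :
    evc x (Psi ψ p₀ n M) = ∑ k : Fin (n + 1), bernstein n k x • chi ψ p₀ k (cmp k M) := by
  show evc x (∑ k : Fin (n + 1), mkc (bernstein n k) (chi ψ p₀ k (cmp k M)) _) = _
  rw [map_sum]
  rfl

theorem isUcp_Psi (ψ : Matrix ι ι ℂ →ₗ[ℂ] D) (hψ : IsUcp ψ) (p₀ : ι) (n : ℕ) :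
    IsUcp (Psi ψ p₀ n) := by
  constructor
  · apply cn_ext
    intro x
    rw [evc_Psi, map_one]
    have h1 : ∀ k : Fin (n + 1), chi ψ p₀ k (cmp (ι := ι) k 1) = 1 := by
      intro k
      rw [(isUcp_cmp (ι := ι) k).1]
      by_cases hk : k = 0
      · subst hk
        rw [chi_zero, Matrix.one_apply_eq, map_one]
      · rw [chi_ne ψ p₀ hk, hψ.1]
    simp only [h1]
    rw [← Finset.sum_smul, bernstein.probability, one_smul]
  · intro m a
    choose b hb using fun k : Fin (n + 1) => (isUcp_cmp (ι := ι) k).2 m a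
    choose c hc1 hc2 using fun k : Fin (n + 1) => chi_sq ψ hψ p₀ k m (b k)
    have hmem : ∀ (k : Fin (n + 1)) (r s : Fin m), (Real.sqrt (bernstein n k 0) = 0) ∨
        ∃ z : ℂ, algebraMap ℂ D z = c k r s := by
      intro k r s
      by_cases hk : k = 0
      · exact Or.inr (hc2 k hk r s)
      · left
        have h1 : (k : ℕ) ≠ 0 := fun h => hk (Fin.ext h)
        simp [bernstein_apply, h1]
    obtain ⟨e, he⟩ := exists_sq_sum (R := Cn D) (Finset.univ : Finset (Fin (n + 1)))
      (fun k => (Matrix.of fun r s => mkc (⟨fun x => Real.sqrt (bernstein n k x), by fun_prop⟩)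
        (c k r s) (hmem k r s) : Matrix (Fin m) (Fin m) (Cn D)))
    refine ⟨e, ?_⟩
    rw [← he]
    refine Matrix.ext fun r s => ?_
    apply cn_ext
    intro x
    rw [Matrix.map_apply, evc_Psi, Matrix.sum_apply, map_sum]
    refine Finset.sum_congr rfl fun k _ => ?_
    have h1 : cmp k ((a.conjTranspose * a) r s) = ((b k).conjTranspose * b k) r s :=
      congrFun (congrFun (hb k) r) s
    have h2 : chi ψ p₀ k (((b k).conjTranspose * b k) r s) =
        ((c k).conjTranspose * c k) r s := congrFun (congrFun (hc1 k) r) s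
    rw [h1, h2, Matrix.mul_apply, Matrix.mul_apply, map_sum, Finset.smul_sum]
    refine Finset.sum_congr rfl fun l _ => ?_
    rw [Matrix.conjTranspose_apply, Matrix.conjTranspose_apply, map_mul, map_star,
      Matrix.of_apply, Matrix.of_apply, evc_mkc, evc_mkc, star_smul, smul_mul_smul_comm]
    congr 1
    show _ = Real.sqrt (bernstein n k x) * Real.sqrt (bernstein n k x)
    rw [Real.mul_self_sqrt bernstein_nonneg]

theorem isNuclear_cone (hD : IsNuclear D) : IsNuclear (Cn D) := by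
  intro F ε hε
  have h1 : ∀ᶠ n : ℕ in atTop, ∀ f ∈ F, ‖bernsteinApproximation n f.1 - f.1‖ < ε / 2 := by
    rw [Filter.eventually_all_finset]
    intro f _
    have h2 := (Metric.tendsto_nhds.1 (bernsteinApproximation_uniform f.1)) (ε / 2) (by positivity)
    filter_upwards [h2] with n hn
    rwa [dist_eq_norm] at hn
  obtain ⟨n, hn⟩ := h1.exists
  classical
  obtain ⟨ι, i1, i2, φ, ψ, hφ, hψ, happ⟩ := hD
    ((F ×ˢ (Finset.univ : Finset (Fin (n + 1)))).image fun y => evc (bernstein.z y.2) y.1)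
    (ε / 2) (by positivity)
  have hne : Nonempty ι := by
    by_contra hcon
    rw [not_nonempty_iff] at hcon
    have h3 : (1 : Matrix ι ι ℂ) = 0 := Subsingleton.elim _ _
    have h4 := hψ.1
    rw [h3, map_zero] at h4
    exact zero_ne_one h4
  obtain ⟨p₀⟩ := hne
  let θ : Fin (n + 1) → (Cn D →ₗ[ℂ] Matrix ι ι ℂ) := fun k =>
    φ ∘ₗ ((evc (bernstein.z k) : Cn D →⋆ₐ[ℂ] D) : Cn D →ₗ[ℂ] D)
  refine ⟨ι × Fin (n + 1), inferInstance, inferInstance, bdm θ, Psi ψ p₀ n,
    isUcp_bdm θ (fun k => hφ.comp (isUcp_starHom _)), isUcp_Psi ψ hψ p₀ n, ?_⟩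
  intro f hf
  have hcmp : ∀ k, cmp k (bdm θ f) = φ (evc (bernstein.z k) f) := by
    intro k
    ext p q
    rw [cmp_apply, bdm_apply, Matrix.blockDiagonal_apply, if_pos rfl]
    rfl
  have hpt : ∀ x, ‖evc x (Psi ψ p₀ n (bdm θ f)) - bernsteinApproximation n f.1 x‖ ≤ ε / 2 := by
    intro x
    rw [evc_Psi, bernsteinApproximation.apply, ← Finset.sum_sub_distrib]
    have h5 : ∀ k ∈ (Finset.univ : Finset (Fin (n + 1))),
        ‖bernstein n k x • chi ψ p₀ k (cmp k (bdm θ f)) -
          bernstein n k x • f.1 (bernstein.z k)‖ ≤ bernstein n k x * (ε / 2) := by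
      intro k _
      rw [← smul_sub, norm_smul, Real.norm_of_nonneg bernstein_nonneg]
      refine mul_le_mul_of_nonneg_left ?_ bernstein_nonneg
      rw [hcmp]
      by_cases hk : k = 0
      · subst hk
        rw [chi_zero]
        obtain ⟨c, hc⟩ := (mem_coneSub D).1 f.2
        have h6 : evc (bernstein.z (0 : Fin (n + 1))) f = algebraMap ℂ D c := by
          rw [evc_apply, bernstein.z_zero, hc]
        have h7 : f.1 (bernstein.z (0 : Fin (n + 1))) = algebraMap ℂ D c := h6
        rw [h6, h7, Algebra.algebraMap_eq_smul_one c, map_smul, hφ.1, Matrix.smul_apply,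
          Matrix.one_apply_eq, smul_eq_mul, mul_one, Algebra.algebraMap_eq_smul_one, sub_self,
          norm_zero]
        positivity
      · rw [chi_ne ψ p₀ hk]
        exact (happ _ (Finset.mem_image.2 ⟨(f, k), by simp [hf], rfl⟩)).le
    refine (norm_sum_le_of_le _ h5).trans ?_
    rw [← Finset.sum_mul, bernstein.probability, one_mul]
  have h8 : ‖Psi ψ p₀ n (bdm θ f) - f‖ ≤ ε / 2 + ‖bernsteinApproximation n f.1 - f.1‖ := by
    refine norm_cn_le (by positivity) fun x => ?_
    have e : evc x (Psi ψ p₀ n (bdm θ f) - f) =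
        (evc x (Psi ψ p₀ n (bdm θ f)) - bernsteinApproximation n f.1 x) +
        (bernsteinApproximation n f.1 - f.1) x := by
      rw [map_sub, ContinuousMap.sub_apply, evc_apply x f]
      abel
    rw [e]
    exact (norm_add_le _ _).trans (add_le_add (hpt x) (ContinuousMap.norm_coe_le_norm _ x))
  have := hn f hf
  linarith

end cone

end Pool.Agent.H231R3.TI
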