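import Mathlib
import Pool.Agent.H231R3.TI.Appr
import Pool.Agent.H231R3.TI.Ucp

set_option autoImplicit false

open scoped InnerProductSpace ComplexOrder Topology
open Filter

namespace Pool.Agent.H231R3.TI

/-- the C*-algebra generated by the two isometries -/
noncomputable def DS : StarSubalgebra ℂ (HH →L[ℂ] HH) := AA.topologicalClosure

/-- the C*-algebra generated by the two isometries, as a type -/
abbrev DD : Type := DS

noncomputable instance : CStarAlgebra DD :=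
  StarSubalgebra.cstarAlgebra (h_closed := StarSubalgebra.isClosed_topologicalClosure AA) DS

theorem mem_DS_of_AA {x : HH →L[ℂ] HH} (h : x ∈ AA) : x ∈ DS :=
  StarSubalgebra.le_topologicalClosure AA h

theorem Ww_mem (n : ℕ) : Ww n ∈ AA := by
  induction n using Nat.strong_induction_on with
  | _ n ih =>
    obtain ⟨i, p, rfl⟩ := em_surj n
    by_cases hp : p = 0
    · subst hp
      fin_cases i
      · show Ww (em 0 0) ∈ AA
        rw [show em 0 0 = 0 from rfl, Ww_zero]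
        exact zero_mem _
      · show Ww (em 1 0) ∈ AA
        rw [show em 1 0 = 1 from rfl, Ww_one]
        exact one_mem _
    · rw [Ww_em i p hp]
      exact mul_mem (Sg_mem i) (ih p (by unfold em; omega))

/-- words as elements of the C*-algebra -/
noncomputable def WD (n : ℕ) : DD := ⟨Ww n, mem_DS_of_AA (Ww_mem n)⟩

/-- generators as elements of the C*-algebra -/
noncomputable def sD (i : Fin 2) : DD := ⟨Sg i, mem_DS_of_AA (Sg_mem i)⟩

theorem star_sD_mul (i : Fin 2) : star (sD i) * sD i = 1 := by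
  apply Subtype.ext
  show star (Sg i) * Sg i = 1
  rw [star_Sg_mul, if_pos rfl]

theorem sum_sD : sD 0 * star (sD 0) + sD 1 * star (sD 1) = 1 := by
  apply Subtype.ext
  exact sum_Sg

/-- inclusion -/
noncomputable def inc : DD →⋆ₐ[ℂ] (HH →L[ℂ] HH) := DS.subtype

theorem inc_inj : Function.Injective inc := Subtype.val_injective

theorem norm_inc (x : DD) : ‖inc x‖ = ‖x‖ := rfl

/-- compression -/
noncomputable def phN (N : ℕ) : DD →ₗ[ℂ] Matrix (Fin N) (Fin N) ℂ where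
  toFun x := Matrix.of fun p q => ⟪dl p, inc x (dl q)⟫_ℂ
  map_add' x y := by
    ext p q
    show ⟪dl p, inc (x + y) (dl q)⟫_ℂ = ⟪dl p, inc x (dl q)⟫_ℂ + ⟪dl p, inc y (dl q)⟫_ℂ
    rw [map_add, add_apply, inner_add_right]
  map_smul' c x := by
    ext p q
    show ⟪dl p, inc (c • x) (dl q)⟫_ℂ = c * ⟪dl p, inc x (dl q)⟫_ℂ
    rw [map_smul, smul_apply, inner_smul_right]

theorem phN_apply (N : ℕ) (x : DD) (p q : Fin N) : phN N x p q = ⟪dl p, inc x (dl q)⟫_ℂ := rfl

theorem isUcp_phN (N : ℕ) : IsUcp (phN N) := by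
  refine isUcp_of_posSemidef _ ?_ ?_
  · ext p q
    rw [phN_apply, map_one, one_apply_eq_self, inner_dl_dl, Matrix.one_apply]
    simp only [Fin.ext_iff]
  · intro k a
    have h := Matrix.posSemidef_gram ℂ (fun y : Fin k × Fin N =>
      (WithLp.toLp 2 (fun l => inc (a l y.1) (dl y.2)) : PiLp 2 (fun _ : Fin k => HH)))
    refine (congrArg Matrix.PosSemidef ?_).mp h
    ext x y
    rw [Matrix.gram_apply, Matrix.of_apply, phN_apply, PiLp.inner_apply, Matrix.mul_apply, map_sum,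
      ContinuousLinearMap.coe_sum', Finset.sum_apply, inner_sum]
    refine Finset.sum_congr rfl fun l _ => ?_
    rw [Matrix.conjTranspose_apply, map_mul, map_star]
    show _ = ⟪dl x.2, star (inc (a l x.1)) (inc (a l y.1) (dl y.2))⟫_ℂ
    rw [ContinuousLinearMap.star_eq_adjoint, ContinuousLinearMap.adjoint_inner_right]

/-- weighted words -/
noncomputable def WN (N : ℕ) (p : Fin (2 ^ N)) : DD := (((Real.sqrt N : ℝ) : ℂ))⁻¹ • WD p

theorem inc_WN_mul (N : ℕ) (p q : Fin (2 ^ N)) : inc (WN N p * star (WN N q)) =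
    ((N : ℂ))⁻¹ • (Ww p * star (Ww q)) := by
  have h1 : ((((Real.sqrt N : ℝ) : ℂ))⁻¹ * star (((Real.sqrt N : ℝ) : ℂ))⁻¹) = ((N : ℂ))⁻¹ := by
    rw [star_inv₀, ← mul_inv]
    congr 1
    rw [Complex.star_def, Complex.conj_ofReal, ← Complex.ofReal_mul,
      Real.mul_self_sqrt (Nat.cast_nonneg N)]
    simp
  rw [map_mul, map_star]
  show ((((Real.sqrt N : ℝ) : ℂ))⁻¹ • Ww p) * star ((((Real.sqrt N : ℝ) : ℂ))⁻¹ • Ww q) = _
  rw [star_smul, smul_mul_smul_comm, h1]

theorem sum_WN (N : ℕ) (hN : N ≠ 0) : ∑ p, WN N p * star (WN N p) = 1 := by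
  apply inc_inj
  rw [map_sum, map_one]
  simp only [inc_WN_mul]
  rw [← Finset.smul_sum, Fin.sum_univ_eq_sum_range (fun p => Ww p * star (Ww p)) (2 ^ N), sum_Ww,
    smul_smul, inv_mul_cancel₀ (Nat.cast_ne_zero.2 hN), one_smul]

theorem inc_comp (N : ℕ) (x : DD) :
    inc (fromW (WN N) (phN (2 ^ N) x)) = ((N : ℂ))⁻¹ • Rr N N (inc x) := by
  rw [fromW_apply, map_sum]
  simp only [map_sum, map_smul, inc_WN_mul]
  unfold Rr
  rw [← Fin.sum_univ_eq_sum_range (fun p => ∑ q ∈ Finset.range (2 ^ N),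
    ⟪dl p, inc x (dl q)⟫_ℂ • (Ww p * star (Ww q))) (2 ^ N), Finset.smul_sum]
  refine Finset.sum_congr rfl fun p _ => ?_
  rw [← Fin.sum_univ_eq_sum_range (fun q =>
    ⟪dl p, inc x (dl q)⟫_ℂ • (Ww p * star (Ww q))) (2 ^ N), Finset.smul_sum]
  refine Finset.sum_congr rfl fun q _ => ?_
  rw [smul_comm, phN_apply]

theorem eventually_near (x : DD) (ε : ℝ) (hε : 0 < ε) :
    ∀ᶠ N : ℕ in atTop, N ≠ 0 ∧ ‖fromW (WN N) (phN (2 ^ N) x) - x‖ < ε := by
  have hx : inc x ∈ closure (AA : Set (HH →L[ℂ] HH)) := x.2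
  obtain ⟨a, ha, hxa⟩ := Metric.mem_closure_iff.1 hx (ε / 8) (by positivity)
  obtain ⟨C, hC⟩ := AA_good a ha
  obtain ⟨N₀, hN₀⟩ := exists_nat_gt (8 * C / ε)
  filter_upwards [eventually_ge_atTop (max N₀ 1)] with N hN
  have hN1 : 1 ≤ N := (le_max_right _ _).trans hN
  have hN0 : N ≠ 0 := by omega
  refine ⟨hN0, ?_⟩
  let y : DD := ⟨a, mem_DS_of_AA ha⟩
  have hy : inc y = a := rfl
  have hxy : ‖x - y‖ < ε / 8 := by
    rw [← norm_inc, map_sub, hy, ← dist_eq_norm]
    exact hxa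
  have hT := (isUcp_fromW (WN N) (sum_WN N hN0)).comp (isUcp_phN (2 ^ N))
  have h1 := hT.norm_le (x - y)
  have h2 : ‖fromW (WN N) (phN (2 ^ N) y) - y‖ < ε / 8 := by
    rw [← norm_inc, map_sub, inc_comp, hy]
    have hNpos : (0 : ℝ) < N := by exact_mod_cast Nat.pos_of_ne_zero hN0
    have e : ((N : ℂ))⁻¹ • Rr N N a - a = ((N : ℂ))⁻¹ • (Rr N N a - ((min N N : ℕ) : ℂ) • a) := by
      rw [smul_sub, min_self, smul_smul, inv_mul_cancel₀ (Nat.cast_ne_zero.2 hN0), one_smul]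
    rw [e, norm_smul, norm_inv, Complex.norm_natCast]
    have h3 := hC N N
    have h4 : (N₀ : ℝ) ≤ N := by exact_mod_cast (le_max_left _ _).trans hN
    have h5 : 8 * C / ε < N := hN₀.trans_le h4
    rw [div_lt_iff₀ hε] at h5
    rw [inv_mul_lt_iff₀ hNpos]
    linarith
  have e : fromW (WN N) (phN (2 ^ N) x) - x = (fromW (WN N) ∘ₗ phN (2 ^ N)) (x - y) +
      (fromW (WN N) (phN (2 ^ N) y) - y) - (x - y) := by
    rw [LinearMap.comp_apply, map_sub, map_sub]
    abel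
  rw [e]
  refine lt_of_le_of_lt (norm_sub_le _ _) ?_
  have h6 := norm_add_le ((fromW (WN N) ∘ₗ phN (2 ^ N)) (x - y))
    (fromW (WN N) (phN (2 ^ N) y) - y)
  linarith

theorem isNuclear_DD : IsNuclear DD := by
  intro F ε hε
  have h1 : ∀ᶠ N : ℕ in atTop, ∀ x ∈ F,
      N ≠ 0 ∧ ‖fromW (WN N) (phN (2 ^ N) x) - x‖ < ε := by
    rw [Filter.eventually_all_finset]
    intro x _
    exact eventually_near x ε hε
  obtain ⟨N, hN, hN0⟩ := (h1.and (eventually_ne_atTop 0)).exists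
  exact ⟨Fin (2 ^ N), inferInstance, inferInstance, phN (2 ^ N), fromW (WN N),
    isUcp_phN _, isUcp_fromW _ (sum_WN N hN0), fun x hx => (hN x hx).2⟩

end Pool.Agent.H231R3.TI
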