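import Mathlib
import Pool.Agent.H231R3.TI.Defs

set_option autoImplicit false
set_option linter.unusedSectionVars false

open scoped InnerProductSpace ComplexOrder Topology ComplexStarModule
open Filter

namespace Pool.Agent.H231R3.TI

section ideals

variable (C : Type) [CStarAlgebra C]

/-- two-sided ideals (as complex subspaces) -/
def IsIdl {C : Type} [CStarAlgebra C] (J : Submodule ℂ C) : Prop :=
  (∀ a, ∀ x ∈ J, a * x ∈ J) ∧ ∀ a, ∀ x ∈ J, x * a ∈ J

theorem exists_maximal_idl [Nontrivial C] : ∃ J : Submodule ℂ C, IsIdl J ∧ (1 : C) ∉ J ∧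
    ∀ I : Submodule ℂ C, IsIdl I → (1 : C) ∉ I → J ≤ I → I = J := by
  obtain ⟨J, -, hJ⟩ := zorn_le_nonempty₀ {J : Submodule ℂ C | IsIdl J ∧ (1 : C) ∉ J} (by
    intro c hc hchain y hy
    have hne : c.Nonempty := ⟨y, hy⟩
    have hdir : DirectedOn (· ≤ ·) c := hchain.directedOn
    refine ⟨sSup c, ⟨⟨?_, ?_⟩, ?_⟩, fun z hz => le_sSup hz⟩
    · intro a x hx
      rw [Submodule.mem_sSup_of_directed hne hdir] at hx ⊢
      obtain ⟨I, hI, hxI⟩ := hx
      exact ⟨I, hI, (hc hI).1.1 a x hxI⟩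
    · intro a x hx
      rw [Submodule.mem_sSup_of_directed hne hdir] at hx ⊢
      obtain ⟨I, hI, hxI⟩ := hx
      exact ⟨I, hI, (hc hI).1.2 a x hxI⟩
    · intro h1
      rw [Submodule.mem_sSup_of_directed hne hdir] at h1
      obtain ⟨I, hI, hxI⟩ := h1
      exact (hc hI).2 hxI) ⊥ (by
    refine ⟨⟨?_, ?_⟩, ?_⟩
    · intro a x hx
      rw [Submodule.mem_bot] at hx ⊢
      rw [hx, mul_zero]
    · intro a x hx
      rw [Submodule.mem_bot] at hx ⊢
      rw [hx, zero_mul]
    · intro h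
      rw [Submodule.mem_bot] at h
      exact one_ne_zero h)
  refine ⟨J, hJ.prop.1, hJ.prop.2, fun I hI h1 hle => ?_⟩
  exact le_antisymm (hJ.le_of_ge ⟨hI, h1⟩ hle) hle

end ideals

section states

variable {C : Type} [CStarAlgebra C]

/-- the states that vanish on the squares of elements of `J` -/
def St (J : Submodule ℂ C) : Set (C → ℂ) :=
  {g | (∀ x y, g (x + y) = g x + g y) ∧ (∀ (c : ℂ) x, g (c • x) = c * g x) ∧
    (∀ x, 0 ≤ g (star x * x)) ∧ g 1 = 1 ∧ ∀ j ∈ J, g (star j * j) = 0}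

/-- the linear map of a state -/
noncomputable def stLin {J : Submodule ℂ C} {g : C → ℂ} (hg : g ∈ St J) : C →ₗ[ℂ] ℂ where
  toFun := g
  map_add' := hg.1
  map_smul' := hg.2.1

theorem st_bound {J : Submodule ℂ C} {g : C → ℂ} (hg : g ∈ St J) (x : C) : ‖g x‖ ≤ 4 * ‖x‖ := by
  let _ : PartialOrder C := CStarAlgebra.spectralOrder C
  have _ : StarOrderedRing C := CStarAlgebra.spectralOrderedRing C
  have hpos : ∀ y : C, 0 ≤ y → 0 ≤ stLin hg y := by
    intro y hy
    rw [CStarAlgebra.nonneg_iff_eq_star_mul_self] at hy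
    obtain ⟨c, rfl⟩ := hy
    exact hg.2.2.1 c
  let f : C →ₚ[ℂ] ℂ := PositiveLinearMap.mk₀ (stLin hg) hpos
  have hf : ∀ y, f y = g y := fun y => rfl
  obtain ⟨y, hy0, hy1, hy2⟩ := CStarAlgebra.exists_sum_four_nonneg x
  have h2 : ∀ i, ‖g (y i)‖ ≤ ‖x‖ := by
    intro i
    have h3 := PositiveLinearMap.norm_apply_le_of_nonneg f (y i) (hy0 i)
    rw [hf, hf, hg.2.2.2.1, norm_one, one_mul] at h3
    exact h3.trans (hy1 i)
  have h3 : g x = ∑ i : Fin 4, Complex.I ^ (i : ℕ) * g (y i) := by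
    have h4 : stLin hg x = stLin hg (∑ i : Fin 4, Complex.I ^ (i : ℕ) • y i) := by rw [← hy2]
    rw [map_sum] at h4
    refine Eq.trans h4 ?_
    refine Finset.sum_congr rfl fun i _ => ?_
    exact hg.2.1 _ _
  rw [h3]
  refine (norm_sum_le _ _).trans ?_
  have h4 : ∀ i ∈ (Finset.univ : Finset (Fin 4)), ‖Complex.I ^ (i : ℕ) * g (y i)‖ ≤ ‖x‖ := by
    intro i _
    rw [norm_mul, norm_pow, Complex.norm_I, one_pow, one_mul]
    exact h2 i
  refine (Finset.sum_le_sum h4).trans ?_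
  simp

theorem isClosed_St (J : Submodule ℂ C) : IsClosed (St J) := by
  have h1 : St J = (⋂ x, ⋂ y, {g : C → ℂ | g (x + y) = g x + g y}) ∩
      ((⋂ c : ℂ, ⋂ x, {g : C → ℂ | g (c • x) = c * g x}) ∩
      ((⋂ x, {g : C → ℂ | 0 ≤ g (star x * x)}) ∩
      ({g : C → ℂ | g 1 = 1} ∩ ⋂ j, ⋂ _ : j ∈ J, {g : C → ℂ | g (star j * j) = 0}))) := by
    ext g
    simp only [St, Set.mem_ofPred_eq, Set.mem_inter_iff, Set.mem_iInter]
  rw [h1]
  refine IsClosed.inter ?_ (IsClosed.inter ?_ (IsClosed.inter ?_ (IsClosed.inter ?_ ?_)))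
  · refine isClosed_iInter fun x => isClosed_iInter fun y => ?_
    exact isClosed_eq (by fun_prop) (by fun_prop)
  · refine isClosed_iInter fun c => isClosed_iInter fun x => ?_
    exact isClosed_eq (by fun_prop) (by fun_prop)
  · refine isClosed_iInter fun x => ?_
    exact isClosed_Ici.preimage (continuous_apply _)
  · exact isClosed_eq (continuous_apply _) continuous_const
  · refine isClosed_iInter fun j => isClosed_iInter fun _ => ?_
    exact isClosed_eq (continuous_apply _) continuous_const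

theorem isCompact_St (J : Submodule ℂ C) : IsCompact (St J) := by
  have h1 : IsCompact (Set.univ.pi fun x : C => Metric.closedBall (0 : ℂ) (4 * ‖x‖)) :=
    isCompact_univ_pi fun x => isCompact_closedBall _ _
  refine h1.of_isClosed_subset (isClosed_St J) ?_
  intro g hg x _
  rw [mem_closedBall_zero_iff]
  exact st_bound hg x

end states

end Pool.Agent.H231R3.TI
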