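import Mathlib
import Pool.Agent.H231R3.TI.Obs1

set_option autoImplicit false
set_option linter.unusedSectionVars false

open scoped InnerProductSpace ComplexOrder Topology ComplexStarModule NNReal
open Filter

namespace Pool.Agent.H231R3.TI

variable {C : Type} [CStarAlgebra C] [Nontrivial C]

/-- the cone of self-adjoint elements that are positive modulo `J` -/
noncomputable def posCone [PartialOrder C] [StarOrderedRing C] (J : Submodule ℂ C) :
    PointedCone ℝ (selfAdjoint C) where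
  carrier := {x | ∃ p : C, 0 ≤ p ∧ ∃ j ∈ J, (x : C) = p + j}
  add_mem' := by
    rintro x y ⟨p, hp, j, hj, hx⟩ ⟨q, hq, k, hk, hy⟩
    refine ⟨p + q, add_nonneg hp hq, j + k, J.add_mem hj hk, ?_⟩
    rw [AddSubgroup.coe_add, hx, hy]
    abel
  zero_mem' := ⟨0, le_rfl, 0, J.zero_mem, by simp⟩
  smul_mem' := by
    rintro ⟨c, hc⟩ x ⟨p, hp, j, hj, hx⟩
    refine ⟨c • p, smul_nonneg hc hp, (c : ℂ) • j, J.smul_mem _ hj, ?_⟩
    show c • (x : C) = _
    rw [hx, smul_add, Complex.coe_smul]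

theorem st_nonempty {J : Submodule ℂ C} (hJ : IsIdl J) (h1 : (1 : C) ∉ J) : (St J).Nonempty := by
  let _ : PartialOrder C := CStarAlgebra.spectralOrder C
  have _ : StarOrderedRing C := CStarAlgebra.spectralOrderedRing C
  have hone : (1 : selfAdjoint C) ≠ 0 := by
    intro h
    have := congrArg Subtype.val h
    exact one_ne_zero this
  let f : selfAdjoint C →ₗ.[ℝ] ℝ := LinearPMap.mkSpanSingleton (1 : selfAdjoint C) (1 : ℝ) hone
  obtain ⟨g, hg1, hg2⟩ := riesz_extension (posCone J) f (by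
    rintro ⟨x, hx⟩ hxs
    obtain ⟨c, hc⟩ := Submodule.mem_span_singleton.1 hx
    subst hc
    have e : f ⟨c • (1 : selfAdjoint C), hx⟩ = c • (1 : ℝ) :=
      LinearPMap.mkSpanSingleton'_apply _ _ _ c hx
    rw [e]
    by_contra hcon
    push Not at hcon
    rw [smul_eq_mul, mul_one] at hcon
    obtain ⟨p, hp, j, hj, hpj⟩ := hxs
    have e1 : j = -((-c) • (1 : C) + p) := by
      have e2 : (c • (1 : selfAdjoint C) : selfAdjoint C) = (c • (1 : C) : C) := rfl
      have e3 : c • (1 : C) = p + j := hpj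
      rw [neg_smul, eq_neg_iff_add_eq_zero, e3]
      abel
    have hu : IsUnit ((-c) • (1 : C) + p) := by
      have e2 : (-c) • (1 : C) = algebraMap ℝ C (-c) := by rw [Algebra.algebraMap_eq_smul_one]
      have h3 : algebraMap ℝ C (-c) ≤ (-c) • (1 : C) + p := by
        rw [e2]
        exact le_add_of_nonneg_right hp
      have h4 : 0 ≤ algebraMap ℝ C (-c) := by
        rw [Algebra.algebraMap_eq_smul_one]
        exact smul_nonneg (by linarith) zero_le_one
      have h5 : IsUnit (algebraMap ℝ C (-c)) :=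
        (isUnit_iff_ne_zero.2 (neg_ne_zero.2 hcon.ne)).map (algebraMap ℝ C)
      exact CStarAlgebra.isUnit_of_le (algebraMap ℝ C (-c)) h3 ⟨h4, h5⟩
    obtain ⟨u, hu⟩ := hu
    apply h1
    have h4 : (-(↑u⁻¹ : C)) * j ∈ J := hJ.1 _ _ hj
    rw [e1, ← hu, neg_mul_neg, Units.inv_mul] at h4
    exact h4) (by
    intro y
    refine ⟨⟨‖y‖ • (1 : selfAdjoint C), Submodule.mem_span_singleton.2 ⟨‖y‖, rfl⟩⟩, ?_⟩
    refine ⟨(‖y‖ • (1 : C) + (y : C)), ?_, 0, J.zero_mem, ?_⟩
    · have h2 := IsSelfAdjoint.neg_algebraMap_norm_le_self (a := (y : C)) y.2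
      rw [Algebra.algebraMap_eq_smul_one] at h2
      have h3 := neg_le_iff_add_nonneg.1 h2
      rw [add_comm] at h3
      exact h3
    · rw [add_zero]
      rfl)
  have hg1' : g 1 = 1 := by
    have := hg1 ⟨(1 : ℝ) • (1 : selfAdjoint C), Submodule.mem_span_singleton.2 ⟨1, rfl⟩⟩
    have e : f ⟨(1 : ℝ) • (1 : selfAdjoint C), Submodule.mem_span_singleton.2 ⟨1, rfl⟩⟩ =
        (1 : ℝ) • (1 : ℝ) :=
      LinearPMap.mkSpanSingleton'_apply _ _ _ 1 _
    rw [e] at this
    simpa using this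
  have hgpos : ∀ x : selfAdjoint C, 0 ≤ (x : C) → 0 ≤ g x := by
    intro x hx
    exact hg2 x ⟨x, hx, 0, J.zero_mem, by rw [add_zero]⟩
  have hgJ : ∀ x : selfAdjoint C, (x : C) ∈ J → g x = 0 := by
    intro x hx
    have h2 := hg2 x ⟨0, le_rfl, x, hx, by rw [zero_add]⟩
    have h3 := hg2 (-x) ⟨0, le_rfl, -x, J.neg_mem hx, by rw [zero_add]; rfl⟩
    rw [map_neg] at h3
    linarith
  refine ⟨fun x => (g (ℜ x) : ℂ) + Complex.I * (g (ℑ x) : ℂ), ?_, ?_, ?_, ?_, ?_⟩
  · intro x y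
    simp only [map_add]
    push_cast
    ring
  · intro c x
    simp only [realPart_smul, imaginaryPart_smul, map_sub, map_add, map_smul, smul_eq_mul]
    push_cast
    have hc : (c : ℂ) = (c.re : ℂ) + Complex.I * (c.im : ℂ) := by
      rw [mul_comm]; exact (Complex.re_add_im c).symm
    conv_rhs => rw [hc]
    linear_combination (-(c.im : ℂ) * (g (ℑ x) : ℂ)) * Complex.I_mul_I
  · intro x
    have hsa : IsSelfAdjoint (star x * x) := IsSelfAdjoint.star_mul_self x
    have h2 : ℑ (star x * x) = 0 := hsa.imaginaryPart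
    have h3 : 0 ≤ g (ℜ (star x * x)) := by
      apply hgpos
      rw [hsa.coe_realPart]
      exact star_mul_self_nonneg x
    show 0 ≤ ((g (ℜ (star x * x)) : ℂ) + Complex.I * (g (ℑ (star x * x)) : ℂ))
    rw [h2, map_zero, Complex.ofReal_zero, mul_zero, add_zero]
    exact_mod_cast h3
  · show ((g (ℜ (1 : C)) : ℂ) + Complex.I * (g (ℑ (1 : C)) : ℂ)) = 1
    have hsa : IsSelfAdjoint (1 : C) := IsSelfAdjoint.one C
    have h2 : ℑ (1 : C) = 0 := hsa.imaginaryPart
    have h3 : ℜ (1 : C) = 1 := Subtype.ext hsa.coe_realPart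
    rw [h2, h3, map_zero, hg1']
    simp
  · intro j hj
    show ((g (ℜ (star j * j)) : ℂ) + Complex.I * (g (ℑ (star j * j)) : ℂ)) = 0
    have hsa : IsSelfAdjoint (star j * j) := IsSelfAdjoint.star_mul_self j
    have h2 : ℑ (star j * j) = 0 := hsa.imaginaryPart
    rw [h2, hgJ _ (by rw [hsa.coe_realPart]; exact hJ.1 _ _ hj), map_zero]
    simp

end Pool.Agent.H231R3.TI
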