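import Mathlib
import Pool.Agent.H231R3.TI.Obs2

set_option autoImplicit false
set_option linter.unusedSectionVars false

open scoped InnerProductSpace ComplexOrder Topology ComplexStarModule NNReal
open Filter

namespace Pool.Agent.H231R3.TI

variable {C : Type} [CStarAlgebra C]

theorem exists_gns {J : Submodule ℂ C} {g : C → ℂ} (hg : g ∈ St J) :
    ∃ (H : Type) (_ : NormedAddCommGroup H) (_ : InnerProductSpace ℂ H) (_ : CompleteSpace H)
      (π : C →⋆ₐ[ℂ] (H →L[ℂ] H)) (ξ : H), (∀ x, ⟪ξ, π x ξ⟫_ℂ = g x) ∧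
      DenseRange fun x => π x ξ := by
  let _ : PartialOrder C := CStarAlgebra.spectralOrder C
  have _ : StarOrderedRing C := CStarAlgebra.spectralOrderedRing C
  have hpos : ∀ y : C, 0 ≤ y → 0 ≤ stLin hg y := by
    intro y hy
    rw [CStarAlgebra.nonneg_iff_eq_star_mul_self] at hy
    obtain ⟨c, rfl⟩ := hy
    exact hg.2.2.1 c
  let f : C →ₚ[ℂ] ℂ := PositiveLinearMap.mk₀ (stLin hg) hpos
  have hf : ∀ y, f y = g y := fun y => rfl
  have hπ : ∀ x : C, f.gnsStarAlgHom x ((f.toPreGNS 1 : f.PreGNS) : f.GNS) =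
      ((f.toPreGNS x : f.PreGNS) : f.GNS) := by
    intro x
    have h1 : f.gnsStarAlgHom x ((f.toPreGNS 1 : f.PreGNS) : f.GNS) =
      ((f.leftMulMapPreGNS x (f.toPreGNS 1) : f.PreGNS) : f.GNS) :=
      f.gnsNonUnitalStarAlgHom_apply_coe
    rw [h1]
    congr 1
    show f.toPreGNS (x * 1) = f.toPreGNS x
    rw [mul_one]
  refine ⟨f.GNS, inferInstance, inferInstance, inferInstance, f.gnsStarAlgHom,
    ((f.toPreGNS 1 : f.PreGNS) : f.GNS), ?_, ?_⟩
  · intro x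
    rw [hπ, UniformSpace.Completion.inner_coe]
    show f (star 1 * x) = g x
    rw [star_one, one_mul, hf]
  · simp only [hπ]
    exact (UniformSpace.Completion.denseRange_coe (α := f.PreGNS))

theorem exists_irrep [Nontrivial C] {J : Submodule ℂ C} (hJ : IsIdl J) (h1 : (1 : C) ∉ J) :
    ∃ (H : Type) (_ : NormedAddCommGroup H) (_ : InnerProductSpace ℂ H) (_ : CompleteSpace H)
      (π : C →⋆ₐ[ℂ] (H →L[ℂ] H)) (ξ : H), ‖ξ‖ = 1 ∧ (∀ j ∈ J, π j = 0) ∧
      ∀ K : Submodule ℂ H, IsClosed (K : Set H) → (∀ x, ∀ k ∈ K, π x k ∈ K) → K = ⊥ ∨ K = ⊤ := by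
  obtain ⟨g, hgex⟩ := (isCompact_St J).extremePoints_nonempty (st_nonempty hJ h1)
  have hg : g ∈ St J := hgex.1
  obtain ⟨H, i1, i2, i3, π, ξ, hξ, hd⟩ := exists_gns hg
  have hstar : ∀ x (a b : H), ⟪π (star x) a, b⟫_ℂ = ⟪a, π x b⟫_ℂ := by
    intro x a b
    rw [map_star, ContinuousLinearMap.star_eq_adjoint, ContinuousLinearMap.adjoint_inner_left]
  have hstar' : ∀ x (a : H), ⟪a, π (star x * x) a⟫_ℂ = ⟪π x a, π x a⟫_ℂ := by
    intro x a
    rw [map_mul]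
    show ⟪a, π (star x) (π x a)⟫_ℂ = _
    rw [← hstar (star x), star_star]
  have hξ1 : ⟪ξ, ξ⟫_ℂ = 1 := by
    have := hξ 1
    rw [map_one, hg.2.2.2.1] at this
    exact this
  have hnξ : ‖ξ‖ = 1 := by
    have h2 := inner_self_eq_norm_sq_to_K (𝕜 := ℂ) ξ
    rw [hξ1] at h2
    have h3' : ((‖ξ‖ ^ 2 : ℝ) : ℂ) = 1 := by
      push_cast
      exact h2.symm
    have h3 : ‖ξ‖ ^ 2 = 1 := Complex.ofReal_eq_one.1 h3'
    have h4 := norm_nonneg ξ
    nlinarith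
  have hker : ∀ j ∈ J, π j = 0 := by
    intro j hj
    ext1 a
    have h2 : ∀ a ∈ Set.range (fun x => π x ξ), π j a = 0 := by
      rintro _ ⟨x, rfl⟩
      have h3 := hstar' (j * x) ξ
      rw [hξ, hg.2.2.2.2 _ (hJ.2 x j hj)] at h3
      have h4 : π (j * x) ξ = 0 := inner_self_eq_zero.1 h3.symm
      rw [map_mul] at h4
      exact h4
    have h3 : IsClosed {a : H | π j a = 0} := isClosed_eq (π j).continuous continuous_const
    exact (h3.closure_subset_iff.2 h2) (hd a)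
  refine ⟨H, i1, i2, i3, π, ξ, hnξ, hker, ?_⟩
  intro K hKc hK
  have hKperp : ∀ x, ∀ k ∈ Kᗮ, π x k ∈ Kᗮ := by
    intro x k hk
    rw [Submodule.mem_orthogonal] at hk ⊢
    intro u hu
    rw [← hstar]
    exact hk _ (hK _ u hu)
  have : CompleteSpace K := hKc.completeSpace_coe
  have htop : ∀ V : Submodule ℂ H, IsClosed (V : Set H) → (∀ x, ∀ k ∈ V, π x k ∈ V) → ξ ∈ V →
      V = ⊤ := by
    intro V hV hVi hξV
    rw [eq_top_iff]
    intro a _
    have h2 : Set.range (fun x => π x ξ) ⊆ (V : Set H) := by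
      rintro _ ⟨x, rfl⟩
      exact hVi x ξ hξV
    exact (hV.closure_subset_iff.2 h2) (hd a)
  obtain ⟨a, haK, b, hbK, hab⟩ := K.exists_add_mem_mem_orthogonal ξ
  have hcross : ∀ x, ⟪a, π x b⟫_ℂ = 0 := fun x =>
    Submodule.inner_right_of_mem_orthogonal haK (hKperp x b hbK)
  have hcross' : ∀ x, ⟪b, π x a⟫_ℂ = 0 := fun x =>
    Submodule.inner_left_of_mem_orthogonal (hK x a haK) hbK
  by_cases ha : a = 0
  · left
    rw [ha, zero_add] at hab
    have h2 := htop Kᗮ K.isClosed_orthogonal hKperp (hab ▸ hbK)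
    rw [Submodule.orthogonal_eq_top_iff] at h2
    exact h2
  by_cases hb : b = 0
  · right
    rw [hb, add_zero] at hab
    exact htop K hKc hK (hab ▸ haK)
  exfalso
  set lam : ℝ := ‖a‖ ^ 2 with hlam
  set mu : ℝ := ‖b‖ ^ 2 with hmu
  have hlpos : 0 < lam := by positivity
  have hmpos : 0 < mu := by positivity
  have haa : ⟪a, a⟫_ℂ = (lam : ℂ) := by
    rw [inner_self_eq_norm_sq_to_K, hlam]; push_cast; rfl
  have hbb : ⟪b, b⟫_ℂ = (mu : ℂ) := by
    rw [inner_self_eq_norm_sq_to_K, hmu]; push_cast; rfl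
  have hsum : lam + mu = 1 := by
    have h2 : ⟪ξ, ξ⟫_ℂ = ⟪a, a⟫_ℂ + ⟪b, b⟫_ℂ := by
      rw [hab, inner_add_left, inner_add_right, inner_add_right]
      have h3 := hcross 1
      have h4 := hcross' 1
      rw [map_one] at h3 h4
      change ⟪a, b⟫_ℂ = 0 at h3
      change ⟪b, a⟫_ℂ = 0 at h4
      rw [h3, h4]
      ring
    rw [hξ1, haa, hbb] at h2
    exact_mod_cast h2.symm
  have hmem : ∀ (c : H) (r : ℝ), 0 < r → ⟪c, c⟫_ℂ = (r : ℂ) →
      (fun x => ((r : ℂ))⁻¹ * ⟪c, π x c⟫_ℂ) ∈ St J := by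
    intro c r hr hc
    have hr' : (r : ℂ) ≠ 0 := by exact_mod_cast hr.ne'
    refine ⟨?_, ?_, ?_, ?_, ?_⟩
    · intro x y
      show ((r : ℂ))⁻¹ * ⟪c, π (x + y) c⟫_ℂ = _
      rw [map_add, add_apply, inner_add_right, mul_add]
    · intro z x
      show ((r : ℂ))⁻¹ * ⟪c, π (z • x) c⟫_ℂ = z * (((r : ℂ))⁻¹ * ⟪c, π x c⟫_ℂ)
      rw [map_smul, smul_apply, inner_smul_right]
      ring
    · intro x
      show 0 ≤ ((r : ℂ))⁻¹ * ⟪c, π (star x * x) c⟫_ℂ
      rw [hstar', inner_self_eq_norm_sq_to_K]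
      have h5 : (0 : ℝ) ≤ r⁻¹ * ‖π x c‖ ^ 2 := by positivity
      have h6 := Complex.zero_le_real.2 h5
      push_cast at h6
      exact h6
    · show ((r : ℂ))⁻¹ * ⟪c, π 1 c⟫_ℂ = 1
      rw [map_one]
      change ((r : ℂ))⁻¹ * ⟪c, c⟫_ℂ = 1
      rw [hc, inv_mul_cancel₀ hr']
    · intro j hj
      show ((r : ℂ))⁻¹ * ⟪c, π (star j * j) c⟫_ℂ = 0
      rw [hstar', hker j hj]
      simp
  have h2 := hgex.2 (hmem a lam hlpos haa) (hmem b mu hmpos hbb) (by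
    refine ⟨lam, mu, hlpos, hmpos, hsum, ?_⟩
    funext x
    show (lam : ℝ) • (((lam : ℂ))⁻¹ * ⟪a, π x a⟫_ℂ) + (mu : ℝ) • (((mu : ℂ))⁻¹ * ⟪b, π x b⟫_ℂ) = g x
    have hl' : (lam : ℂ) ≠ 0 := by exact_mod_cast hlpos.ne'
    have hm' : (mu : ℂ) ≠ 0 := by exact_mod_cast hmpos.ne'
    rw [Complex.real_smul, Complex.real_smul, mul_inv_cancel_left₀ hl', mul_inv_cancel_left₀ hm',
      ← hξ x, hab, map_add, inner_add_left, inner_add_right, inner_add_right, hcross, hcross']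
    ring)
  have h3 : ∀ x, ⟪a - (lam : ℂ) • ξ, π x ξ⟫_ℂ = 0 := by
    intro x
    have h4 := congrFun h2 x
    change ((lam : ℂ))⁻¹ * ⟪a, π x a⟫_ℂ = g x at h4
    have hl' : (lam : ℂ) ≠ 0 := by exact_mod_cast hlpos.ne'
    rw [inv_mul_eq_iff_eq_mul₀ hl'] at h4
    rw [inner_sub_left, inner_smul_left, hξ x, Complex.conj_ofReal, ← h4]
    conv_lhs => rw [hab, map_add, inner_add_right, hcross]
    ring
  have h4 : a - (lam : ℂ) • ξ = 0 := by
    have h5 : IsClosed {c : H | ⟪a - (lam : ℂ) • ξ, c⟫_ℂ = 0} :=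
      isClosed_eq (continuous_const.inner continuous_id) continuous_const
    have h6 : Set.range (fun x => π x ξ) ⊆ {c : H | ⟪a - (lam : ℂ) • ξ, c⟫_ℂ = 0} := by
      rintro _ ⟨x, rfl⟩
      exact h3 x
    exact inner_self_eq_zero.1 ((h5.closure_subset_iff.2 h6) (hd (a - (lam : ℂ) • ξ)))
  have h5 : ξ ∈ K := by
    have hl' : (lam : ℂ) ≠ 0 := by exact_mod_cast hlpos.ne'
    have h6 : ξ = ((lam : ℂ))⁻¹ • a := by
      rw [sub_eq_zero.1 h4, smul_smul, inv_mul_cancel₀ hl', one_smul]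
    rw [h6]
    exact K.smul_mem _ haK
  have h6 : b ∈ K := by
    have : b = ξ - a := by rw [hab]; abel
    rw [this]
    exact K.sub_mem h5 haK
  exact hb (inner_self_eq_zero.1 (Submodule.inner_right_of_mem_orthogonal h6 hbK))

end Pool.Agent.H231R3.TI
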