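import Mathlib
import Pool.Agent.H231R3.TI.Obs3

set_option autoImplicit false
set_option linter.unusedSectionVars false

open scoped InnerProductSpace ComplexOrder Topology ComplexStarModule NNReal
open Filter

namespace Pool.Agent.H231R3.TI

section finite

variable {X : Type} [NonUnitalRing X] [StarRing X] [Module ℂ X]

theorem typeI_finite (hX : IsTypeI X) {C : Type} [CStarAlgebra C] [Nontrivial C]
    (ρ : X →⋆ₙₐ[ℂ] C) (hd : DenseRange ρ) :
    ∃ (H : Type) (_ : NormedAddCommGroup H) (_ : InnerProductSpace ℂ H) (_ : CompleteSpace H),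
      FiniteDimensional ℂ H ∧ Nontrivial H ∧ Nonempty (C →⋆ₐ[ℂ] (H →L[ℂ] H)) := by
  obtain ⟨J, hJ, hJ1, hJmax⟩ := exists_maximal_idl C
  obtain ⟨H, i1, i2, i3, π, ξ, hξ, hker, hirr⟩ := exists_irrep hJ hJ1
  have hξ0 : ξ ≠ 0 := by
    intro h
    rw [h, norm_zero] at hξ
    exact zero_ne_one hξ
  have hnt : Nontrivial H := ⟨ξ, 0, hξ0⟩
  have hπc : Continuous π := AddMonoidHomClass.continuous_of_bound π 1 (fun x => by
    rw [one_mul]
    exact NonUnitalStarAlgHom.norm_apply_le π x)
  let π' : X →⋆ₙₐ[ℂ] (H →L[ℂ] H) := (π : C →⋆ₙₐ[ℂ] (H →L[ℂ] H)).comp ρ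
  have hπ' : ∀ b, π' b = π (ρ b) := fun b => rfl
  have hI : IsIrreducible π' := by
    refine ⟨?_, ?_⟩
    · by_contra hcon
      push Not at hcon
      have h2 : IsClosed {x : C | π x = 0} := isClosed_eq hπc continuous_const
      have h3 : Set.range ρ ⊆ {x : C | π x = 0} := by
        rintro _ ⟨b, rfl⟩
        exact hcon b
      have h4 : π 1 = 0 := (h2.closure_subset_iff.2 h3) (hd 1)
      rw [map_one] at h4
      have h5 := congrArg (fun T : H →L[ℂ] H => T ξ) h4
      exact hξ0 h5
    · intro K hK hinv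
      refine hirr K hK ?_
      intro x k hk
      have h2 : IsClosed {x : C | π x k ∈ K} := by
        have h5 : Continuous fun x : C => π x k :=
          (ContinuousLinearMap.apply ℂ H k).continuous.comp hπc
        exact hK.preimage h5
      have h3 : Set.range ρ ⊆ {x : C | π x k ∈ K} := by
        rintro _ ⟨b, rfl⟩
        exact hinv b k hk
      exact (h2.closure_subset_iff.2 h3) (hd x)
  let T : H →L[ℂ] H := (ContinuousLinearMap.toSpanSingleton ℂ ξ).comp (innerSL ℂ ξ)
  have hTξ : T ξ = ξ := by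
    show (⟪ξ, ξ⟫_ℂ) • ξ = ξ
    rw [inner_self_eq_norm_sq_to_K, hξ]
    simp
  have hT : IsCompactOperator T :=
    (isCompactOperator_of_locallyCompactSpace_dom (innerSL ℂ ξ)).clm_comp
      (ContinuousLinearMap.toSpanSingleton ℂ ξ)
  obtain ⟨b, hb⟩ := hX H π' hI T hT
  let I' : Submodule ℂ C :=
    { carrier := {x | IsCompactOperator (π x)}
      add_mem' := by
        intro x y hx hy
        show IsCompactOperator (π (x + y))
        rw [map_add]
        exact hx.add hy
      zero_mem' := by
        show IsCompactOperator (π 0)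
        rw [map_zero]
        exact isCompactOperator_zero
      smul_mem' := by
        intro c x hx
        show IsCompactOperator (π (c • x))
        rw [map_smul]
        exact hx.smul c }
  have hI' : IsIdl I' := by
    constructor
    · intro a x hx
      show IsCompactOperator (π (a * x))
      rw [map_mul]
      exact IsCompactOperator.clm_comp hx (π a)
    · intro a x hx
      show IsCompactOperator (π (x * a))
      rw [map_mul]
      exact IsCompactOperator.comp_clm hx (π a)
  have h1 : (1 : C) ∈ I' := by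
    by_contra hcon
    have h2 := hJmax I' hI' hcon (by
      intro j hj
      show IsCompactOperator (π j)
      rw [hker j hj]
      exact isCompactOperator_zero)
    have h3 : ρ b ∈ I' := by
      show IsCompactOperator (π (ρ b))
      rw [← hπ', hb]
      exact hT
    rw [h2] at h3
    have h4 := hker _ h3
    rw [← hπ', hb] at h4
    apply hξ0
    rw [← hTξ, h4]
    rfl
  have h2 : IsCompactOperator (π 1) := h1
  rw [map_one] at h2
  have h3 : FiniteDimensional ℂ H := isCompactOperator_id_iff_finiteDimensional.1 h2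
  exact ⟨H, i1, i2, i3, h3, hnt, ⟨π⟩⟩

end finite

section trace

variable {H : Type} [NormedAddCommGroup H] [InnerProductSpace ℂ H] [CompleteSpace H]
  [FiniteDimensional ℂ H]

/-- the trace -/
noncomputable def trH (T : H →L[ℂ] H) : ℂ := LinearMap.trace ℂ H (T : H →ₗ[ℂ] H)

theorem trH_add (S T : H →L[ℂ] H) : trH (S + T) = trH S + trH T := by
  unfold trH
  rw [← map_add]
  rfl

theorem trH_sub (S T : H →L[ℂ] H) : trH (S - T) = trH S - trH T := by
  unfold trH
  rw [← map_sub]
  rfl

theorem trH_comm (S T : H →L[ℂ] H) : trH (S * T) = trH (T * S) := by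
  unfold trH
  exact LinearMap.trace_mul_comm ℂ (S : H →ₗ[ℂ] H) (T : H →ₗ[ℂ] H)

theorem trH_one : trH (1 : H →L[ℂ] H) = (Module.finrank ℂ H : ℂ) := by
  unfold trH
  exact LinearMap.trace_one ℂ H

theorem norm_trH_le (T : H →L[ℂ] H) : ‖trH T‖ ≤ (Module.finrank ℂ H : ℝ) * ‖T‖ := by
  unfold trH
  rw [LinearMap.trace_eq_sum_inner _ (stdOrthonormalBasis ℂ H)]
  refine (norm_sum_le _ _).trans ?_
  have h1 : ∀ i ∈ (Finset.univ : Finset (Fin (Module.finrank ℂ H))),
      ‖⟪stdOrthonormalBasis ℂ H i, (T : H →ₗ[ℂ] H) (stdOrthonormalBasis ℂ H i)⟫_ℂ‖ ≤ ‖T‖ := by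
    intro i _
    refine (norm_inner_le_norm _ _).trans ?_
    rw [(stdOrthonormalBasis ℂ H).orthonormal.1 i, one_mul]
    refine (T.le_opNorm _).trans ?_
    rw [(stdOrthonormalBasis ℂ H).orthonormal.1 i, mul_one]
  refine (Finset.sum_le_sum h1).trans ?_
  rw [Finset.sum_const, Finset.card_univ, Fintype.card_fin, nsmul_eq_mul]

theorem no_almost_cuntz [Nontrivial H] (A B : H →L[ℂ] H) (δ : ℝ) (hδ : 4 * δ < 1)
    (h1 : ‖star A * A - 1‖ ≤ δ) (h2 : ‖star B * B - 1‖ ≤ δ)
    (h3 : ‖A * star A + B * star B - 1‖ ≤ 2 * δ) : False := by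
  have hd : (0 : ℝ) < Module.finrank ℂ H := by exact_mod_cast Module.finrank_pos
  have e1 := norm_trH_le (star A * A - 1)
  have e2 := norm_trH_le (star B * B - 1)
  have e3 := norm_trH_le (A * star A + B * star B - 1)
  have e : trH (1 : H →L[ℂ] H) = trH (A * star A + B * star B - 1) - trH (star A * A - 1) -
      trH (star B * B - 1) := by
    rw [trH_sub, trH_sub, trH_sub, trH_add, trH_comm (star A), trH_comm (star B)]
    ring
  have e4 : (Module.finrank ℂ H : ℝ) ≤ ‖trH (A * star A + B * star B - 1)‖ +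
      ‖trH (star A * A - 1)‖ + ‖trH (star B * B - 1)‖ := by
    have h5 : ‖trH (1 : H →L[ℂ] H)‖ = Module.finrank ℂ H := by
      rw [trH_one, Complex.norm_natCast]
    rw [← h5, e]
    refine (norm_sub_le _ _).trans ?_
    have := norm_sub_le (trH (A * star A + B * star B - 1)) (trH (star A * A - 1))
    linarith
  nlinarith

end trace

end Pool.Agent.H231R3.TI
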