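import Mathlib
import Pool.Agent.H231R3.TI.Obs4

set_option autoImplicit false
set_option linter.unusedSectionVars false

open scoped InnerProductSpace ComplexOrder Topology ComplexStarModule NNReal
open Filter

namespace Pool.Agent.H231R3.TI

section

variable {X : Type} [NonUnitalRing X] [StarRing X] [Module ℂ X]
variable {D : Type} [CStarAlgebra D]

/-- the closure of the image, as a unital subalgebra -/
def clSub (ρ : X →⋆ₙₐ[ℂ] D) (h1 : (1 : D) ∈ closure (Set.range ρ)) : StarSubalgebra ℂ D where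
  carrier := closure (Set.range ρ)
  mul_mem' := by
    intro a b ha hb
    refine map_mem_closure₂ continuous_mul ha hb ?_
    rintro _ ⟨x, rfl⟩ _ ⟨y, rfl⟩
    exact ⟨x * y, map_mul ρ x y⟩
  one_mem' := h1
  add_mem' := by
    intro a b ha hb
    refine map_mem_closure₂ continuous_add ha hb ?_
    rintro _ ⟨x, rfl⟩ _ ⟨y, rfl⟩
    exact ⟨x + y, map_add ρ x y⟩
  zero_mem' := subset_closure ⟨0, map_zero ρ⟩
  algebraMap_mem' := by
    intro r
    rw [Algebra.algebraMap_eq_smul_one]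
    refine map_mem_closure (continuous_const_smul r) h1 ?_
    rintro _ ⟨x, rfl⟩
    exact ⟨r • x, map_smul ρ r x⟩
  star_mem' := by
    intro a ha
    refine map_mem_closure continuous_star ha ?_
    rintro _ ⟨x, rfl⟩
    exact ⟨star x, map_star ρ x⟩

theorem mem_clSub (ρ : X →⋆ₙₐ[ℂ] D) (h1 : (1 : D) ∈ closure (Set.range ρ)) (d : D) :
    d ∈ clSub ρ h1 ↔ d ∈ closure (Set.range ρ) := Iff.rfl

theorem one_mem_closure (ρ : X →⋆ₙₐ[ℂ] D) (y : X) (hy : ‖1 - ρ y‖ < 1) :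
    (1 : D) ∈ closure (Set.range ρ) := by
  have h1 : ∀ n : ℕ, 1 - (1 - ρ y) ^ n ∈ Set.range ρ := by
    intro n
    induction n with
    | zero => exact ⟨0, by rw [map_zero, pow_zero, sub_self]⟩
    | succ n ih =>
      obtain ⟨w, hw⟩ := ih
      refine ⟨w + y - w * y, ?_⟩
      rw [map_sub, map_add, map_mul, hw, pow_succ]
      noncomm_ring
  have h2 : Tendsto (fun n : ℕ => 1 - (1 - ρ y) ^ n) atTop (𝓝 (1 - 0)) :=
    (tendsto_pow_atTop_nhds_zero_of_norm_lt_one hy).const_sub 1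
  rw [sub_zero] at h2
  exact mem_closure_of_tendsto h2 (Eventually.of_forall h1)

theorem norm_star_mul_sub (a s : D) (δ : ℝ) (hs : ‖s‖ ≤ 1) (h : ‖a - s‖ ≤ δ) :
    ‖star a * a - star s * s‖ ≤ (2 + δ) * δ ∧ ‖a * star a - s * star s‖ ≤ (2 + δ) * δ := by
  have hδ : 0 ≤ δ := (norm_nonneg _).trans h
  have ha : ‖a‖ ≤ 1 + δ := by
    have := norm_add_le s (a - s)
    rw [add_sub_cancel] at this
    linarith
  have h' : ‖star a - star s‖ ≤ δ := by rw [← star_sub, norm_star]; exact h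
  have ha' : ‖star a‖ ≤ 1 + δ := by rw [norm_star]; exact ha
  have hs' : ‖star s‖ ≤ 1 := by rw [norm_star]; exact hs
  constructor
  · have e : star a * a - star s * s = star a * (a - s) + (star a - star s) * s := by
      noncomm_ring
    rw [e]
    refine (norm_add_le _ _).trans ?_
    have e1 := norm_mul_le (star a) (a - s)
    have e2 := norm_mul_le (star a - star s) s
    have e3 : ‖star a‖ * ‖a - s‖ ≤ (1 + δ) * δ :=
      mul_le_mul ha' h (norm_nonneg _) (by linarith)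
    have e4 : ‖star a - star s‖ * ‖s‖ ≤ δ * 1 := mul_le_mul h' hs (norm_nonneg _) hδ
    nlinarith
  · have e : a * star a - s * star s = a * (star a - star s) + (a - s) * star s := by
      noncomm_ring
    rw [e]
    refine (norm_add_le _ _).trans ?_
    have e1 := norm_mul_le a (star a - star s)
    have e2 := norm_mul_le (a - s) (star s)
    have e3 : ‖a‖ * ‖star a - star s‖ ≤ (1 + δ) * δ :=
      mul_le_mul ha h' (norm_nonneg _) (by linarith)
    have e4 : ‖a - s‖ * ‖star s‖ ≤ δ * 1 := mul_le_mul h hs' (norm_nonneg _) hδ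
    nlinarith

theorem no_typeI [Nontrivial D] (hX : IsTypeI X) (ρ : X →⋆ₙₐ[ℂ] D) (s₀ s₁ : D)
    (h0 : star s₀ * s₀ = 1) (h1 : star s₁ * s₁ = 1) (hs : s₀ * star s₀ + s₁ * star s₁ = 1)
    (x₀ x₁ : X) (hx₀ : ‖ρ x₀ - s₀‖ ≤ 1 / 16) (hx₁ : ‖ρ x₁ - s₁‖ ≤ 1 / 16) : False := by
  have hnorm : ∀ s : D, star s * s = 1 → ‖s‖ ≤ 1 := by
    intro s hs
    have h2 := CStarRing.norm_star_mul_self (x := s)
    rw [hs, norm_one] at h2
    nlinarith [norm_nonneg s]
  obtain ⟨a1, a2⟩ := norm_star_mul_sub (ρ x₀) s₀ _ (hnorm s₀ h0) hx₀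
  obtain ⟨b1, b2⟩ := norm_star_mul_sub (ρ x₁) s₁ _ (hnorm s₁ h1) hx₁
  rw [h0] at a1
  rw [h1] at b1
  have hone : (1 : D) ∈ closure (Set.range ρ) := by
    refine one_mem_closure ρ (star x₀ * x₀) ?_
    rw [map_mul, map_star, norm_sub_rev]
    refine a1.trans_lt ?_
    norm_num
  let _ : CStarAlgebra (clSub ρ hone) :=
    StarSubalgebra.cstarAlgebra (h_closed := isClosed_closure) (clSub ρ hone)
  have hnt : Nontrivial (clSub ρ hone) := ⟨0, 1, fun h => by
    have := congrArg Subtype.val h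
    exact zero_ne_one this⟩
  let ρ' : X →⋆ₙₐ[ℂ] (clSub ρ hone) :=
    { toFun := fun x => ⟨ρ x, subset_closure ⟨x, rfl⟩⟩
      map_smul' := fun c x => Subtype.ext (map_smul ρ c x)
      map_zero' := Subtype.ext (map_zero ρ)
      map_add' := fun x y => Subtype.ext (map_add ρ x y)
      map_mul' := fun x y => Subtype.ext (map_mul ρ x y)
      map_star' := fun x => Subtype.ext (map_star ρ x) }
  have hd : DenseRange ρ' := by
    intro c
    rw [Metric.mem_closure_iff]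
    intro ε hε
    obtain ⟨_, ⟨x, rfl⟩, hx⟩ := Metric.mem_closure_iff.1 ((mem_clSub ρ hone _).1 c.2) ε hε
    exact ⟨ρ' x, ⟨x, rfl⟩, hx⟩
  obtain ⟨H, i1, i2, i3, hfd, hntH, ⟨π⟩⟩ := typeI_finite hX ρ' hd
  have hle : ∀ c : clSub ρ hone, ‖π c‖ ≤ ‖(c : D)‖ := fun c => NonUnitalStarAlgHom.norm_apply_le π c
  refine no_almost_cuntz (π (ρ' x₀)) (π (ρ' x₁)) ((2 + 1 / 16) * (1 / 16)) (by norm_num) ?_ ?_ ?_
  · have e : star (π (ρ' x₀)) * π (ρ' x₀) - 1 = π (star (ρ' x₀) * ρ' x₀ - 1) := by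
      rw [map_sub, map_mul, map_star, map_one]
    rw [e]
    exact (hle _).trans a1
  · have e : star (π (ρ' x₁)) * π (ρ' x₁) - 1 = π (star (ρ' x₁) * ρ' x₁ - 1) := by
      rw [map_sub, map_mul, map_star, map_one]
    rw [e]
    exact (hle _).trans b1
  · have e : π (ρ' x₀) * star (π (ρ' x₀)) + π (ρ' x₁) * star (π (ρ' x₁)) - 1 =
        π (ρ' x₀ * star (ρ' x₀) + ρ' x₁ * star (ρ' x₁) - 1) := by
      rw [map_sub, map_add, map_mul, map_mul, map_star, map_star, map_one]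
    rw [e]
    refine (hle _).trans ?_
    show ‖ρ x₀ * star (ρ x₀) + ρ x₁ * star (ρ x₁) - 1‖ ≤ _
    rw [← hs, show ρ x₀ * star (ρ x₀) + ρ x₁ * star (ρ x₁) - (s₀ * star s₀ + s₁ * star s₁) =
      (ρ x₀ * star (ρ x₀) - s₀ * star s₀) + (ρ x₁ * star (ρ x₁) - s₁ * star s₁) by abel]
    refine (norm_add_le _ _).trans ?_
    linarith

end

end Pool.Agent.H231R3.TI
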