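import Mathlib
import Pool.Agent.H231R3.TI.Cone

set_option autoImplicit false
set_option linter.unusedSectionVars false

open scoped InnerProductSpace ComplexOrder Topology unitInterval
open Filter

namespace Pool.Agent.H231R3.TI

theorem proj_small {A : Type} [NonUnitalCStarAlgebra A] {q : A} (h1 : q * q = q)
    (h2 : star q = q) (h3 : ‖q‖ < 1) : q = 0 := by
  have h4 := CStarRing.norm_star_mul_self (x := q)
  rw [h2, h1] at h4
  rw [← norm_eq_zero]
  have := norm_nonneg q
  nlinarith

/-- a path of isometries starting at a unitary consists of unitaries -/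
theorem path_unitary {A : Type} [CStarAlgebra A] (V : I → A) (hV : Continuous V)
    (h1 : ∀ x, star (V x) * V x = 1) (h0 : V 0 * star (V 0) = 1) (x : I) :
    V x * star (V x) = 1 := by
  have hcl : IsClosed {x : I | V x * star (V x) = 1} :=
    isClosed_eq (hV.mul hV.star) continuous_const
  have hop : IsOpen {x : I | V x * star (V x) = 1} := by
    rw [isOpen_iff_mem_nhds]
    intro x hx
    have hc : Continuous fun y => ‖1 - V y * star (V y)‖ :=
      (continuous_const.sub (hV.mul hV.star)).norm
    have h2 : ‖1 - V x * star (V x)‖ < 1 := by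
      have hx' : V x * star (V x) = 1 := hx
      rw [hx', sub_self, norm_zero]
      exact zero_lt_one
    filter_upwards [hc.continuousAt.eventually_lt_const h2] with y hy
    have h3 : (1 - V y * star (V y)) * (1 - V y * star (V y)) = 1 - V y * star (V y) := by
      have e : V y * star (V y) * (V y * star (V y)) = V y * star (V y) := by
        rw [mul_assoc, ← mul_assoc (star (V y)), h1, one_mul]
      rw [mul_sub, sub_mul, sub_mul, e]
      noncomm_ring
    have h4 : star (1 - V y * star (V y)) = 1 - V y * star (V y) := by
      rw [star_sub, star_one, star_mul, star_star]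
    have h5 := proj_small h3 h4 hy
    show V y * star (V y) = 1
    rw [sub_eq_zero] at h5
    exact h5.symm
  have huniv := IsClopen.eq_univ ⟨hcl, hop⟩ ⟨0, h0⟩
  have : x ∈ {x : I | V x * star (V x) = 1} := by rw [huniv]; trivial
  exact this

variable {D : Type} [CStarAlgebra D] [Nontrivial D]

theorem isStablyFinite_cone : IsStablyFinite (Cn D) := by
  intro n v hv
  let _ : PartialOrder D := CStarAlgebra.spectralOrder D
  have _ : StarOrderedRing D := CStarAlgebra.spectralOrderedRing D
  let V : I → CStarMatrix (Fin n) (Fin n) D := fun x => CStarMatrix.ofMatrix (v.map (evc x))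
  have hev : ∀ (x : I) (w w' : Matrix (Fin n) (Fin n) (Cn D)),
      (w * w').map (evc x) = w.map (evc x) * w'.map (evc x) := by
    intro x w w'
    ext r s
    rw [Matrix.map_apply, Matrix.mul_apply, Matrix.mul_apply, map_sum]
    refine Finset.sum_congr rfl fun l _ => ?_
    rw [map_mul]
    rfl
  have hevs : ∀ (x : I) (w : Matrix (Fin n) (Fin n) (Cn D)),
      w.conjTranspose.map (evc x) = (w.map (evc x)).conjTranspose := by
    intro x w
    ext r s
    rw [Matrix.map_apply, Matrix.conjTranspose_apply, Matrix.conjTranspose_apply, map_star]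
    rfl
  have hev1 : ∀ x : I, (1 : Matrix (Fin n) (Fin n) (Cn D)).map (evc x) = 1 := by
    intro x
    ext r s
    rw [Matrix.map_apply, Matrix.one_apply, Matrix.one_apply]
    split_ifs
    · exact map_one _
    · exact map_zero _
  have hV : Continuous V := by
    refine (CStarMatrix.ofMatrixL (m := Fin n) (n := Fin n) (A := D)).continuous.comp ?_
    refine continuous_matrix fun r s => ?_
    exact (v r s).1.continuous
  have h1 : ∀ x, star (V x) * V x = 1 := by
    intro x
    have h2 := congrArg (fun w => w.map (evc x)) hv
    simp only [hev, hevs, hev1] at h2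
    exact h2
  have h0 : V 0 * star (V 0) = 1 := by
    have hc : ∀ r s, ∃ c : ℂ, algebraMap ℂ D c = evc 0 (v r s) := fun r s =>
      (mem_coneSub D).1 (v r s).2
    choose c hc using hc
    let c' : Matrix (Fin n) (Fin n) ℂ := Matrix.of c
    have e1 : v.map (evc 0) = c'.map (algebraMap ℂ D) := by
      ext r s
      exact (hc r s).symm
    have e2 : (v.map (evc 0)).conjTranspose = c'.conjTranspose.map (algebraMap ℂ D) := by
      rw [e1]
      ext r s
      rw [Matrix.conjTranspose_apply, Matrix.map_apply, Matrix.map_apply,
        Matrix.conjTranspose_apply]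
      exact (algebraMap_star_comm _).symm
    have h2 : (v.map (evc 0)).conjTranspose * v.map (evc 0) = 1 := h1 0
    rw [e2, e1] at h2
    have h3 : (c'.conjTranspose * c').map (algebraMap ℂ D) = 1 := by
      rw [← h2]
      exact Matrix.map_mul
    have h4 : c'.conjTranspose * c' = 1 := by
      have hinj : Function.Injective (algebraMap ℂ D) := (algebraMap ℂ D).injective
      have h5 := Matrix.map_injective hinj (m := Fin n) (n := Fin n)
      apply h5
      exact h3.trans (Matrix.map_one _ (map_zero _) (map_one _)).symm
    have h5 : c' * c'.conjTranspose = 1 := mul_eq_one_comm.1 h4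
    show v.map (evc 0) * (v.map (evc 0)).conjTranspose = 1
    rw [e2, e1, ← Matrix.map_mul, h5]
    exact Matrix.map_one _ (map_zero _) (map_one _)
  have h2 := path_unitary V hV h1 h0
  refine Matrix.ext fun r s => ?_
  apply cn_ext
  intro x
  have h3 : (v * v.conjTranspose).map (evc x) = 1 := by
    rw [hev, hevs]
    exact h2 x
  have h4 := congrFun (congrFun h3 r) s
  have h5 := congrFun (congrFun (hev1 x) r) s
  rw [← h5] at h4
  exact h4

end Pool.Agent.H231R3.TI
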