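import Mathlib
import Pool.Agent.H231R3.TI.ND
import Pool.Agent.H231R3.TI.Cone
import Pool.Agent.H231R3.TI.SF
import Pool.Agent.H231R3.TI.Obs5

set_option autoImplicit false
set_option linter.unusedSectionVars false

open scoped InnerProductSpace ComplexOrder Topology unitInterval
open Filter TopologicalSpace

namespace Pool.Agent.H231R3.TI

theorem countable_closure_monoid {M : Type*} [Monoid M] {s : Set M} (hs : s.Countable) :
    (Submonoid.closure s : Set M).Countable := by
  rw [Submonoid.closure_eq_mrange, MonoidHom.coe_mrange]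
  have : Countable s := hs.to_subtype
  have : Countable (FreeMonoid s) := inferInstanceAs (Countable (List s))
  exact Set.countable_range _

theorem separable_AA : IsSeparable (AA : Set (HH →L[ℂ] HH)) := by
  have h1 : (AA : Set (HH →L[ℂ] HH)) =
      (Submodule.span ℂ (Submonoid.closure
        (({Sg 0, Sg 1} : Set (HH →L[ℂ] HH)) ∪ star {Sg 0, Sg 1}) : Set (HH →L[ℂ] HH)) :
        Set (HH →L[ℂ] HH)) := by
    rw [← Algebra.adjoin_eq_span]
    rfl
  rw [h1]
  refine IsSeparable.span (Set.Countable.isSeparable (countable_closure_monoid ?_))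
  refine Set.Countable.union ?_ ?_
  · exact (Set.toFinite _).countable
  · exact (Set.Finite.star (Set.toFinite _)).countable

instance : SeparableSpace DD := by
  have h1 : IsSeparable (DS : Set (HH →L[ℂ] HH)) := separable_AA.closure
  exact h1.separableSpace

instance : Nontrivial DD := ⟨0, 1, fun h => by
  have h1 : (0 : HH →L[ℂ] HH) = 1 := congrArg Subtype.val h
  have h2 := congrArg (fun T : HH →L[ℂ] HH => T (dl 0)) h1
  have h3 : (0 : HH) = dl 0 := h2
  have h4 := congrArg (fun f : HH => f 0) h3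
  change (0 : ℂ) = (dl 0) 0 at h4
  rw [dl_apply, if_pos rfl] at h4
  exact zero_ne_one h4⟩

theorem separable_cone : SeparableSpace (Cn DD) := by
  have : SecondCountableTopology DD := UniformSpace.secondCountable_of_separable DD
  have h1 : SecondCountableTopology C(I, DD) := inferInstance
  have h2 : SecondCountableTopology (Cn DD) :=
    inferInstanceAs (SecondCountableTopology (coneSub DD : Set C(I, DD)))
  infer_instance

/-- the functions `t ↦ t s_i` -/
noncomputable def fC (i : Fin 2) : Cn DD :=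
  mkc ⟨fun x : I => (x : ℝ), by fun_prop⟩ (sD i) (Or.inl rfl)

theorem evc_fC (i : Fin 2) : evc (1 : I) (fC i) = sD i := by
  show ((1 : I) : ℝ) • sD i = sD i
  rw [Set.Icc.coe_one, one_smul]

theorem not_locallyTypeI : ¬ LocallyTypeI (Cn DD) := by
  intro h
  classical
  obtain ⟨B, -, hB, hF⟩ := h {fC 0, fC 1} (1 / 16) (by norm_num)
  obtain ⟨b₀, hb₀, h0⟩ := hF (fC 0) (by simp)
  obtain ⟨b₁, hb₁, h1⟩ := hF (fC 1) (by simp)
  let ρ : B →⋆ₙₐ[ℂ] DD :=
    { toFun := fun b => evc (1 : I) b.1
      map_smul' := fun c b => map_smul (evc (1 : I)) c b.1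
      map_zero' := map_zero (evc (1 : I))
      map_add' := fun b c => map_add (evc (1 : I)) b.1 c.1
      map_mul' := fun b c => map_mul (evc (1 : I)) b.1 c.1
      map_star' := fun b => map_star (evc (1 : I)) b.1 }
  refine no_typeI hB ρ (sD 0) (sD 1) (star_sD_mul 0) (star_sD_mul 1) sum_sD ⟨b₀, hb₀⟩ ⟨b₁, hb₁⟩
    ?_ ?_
  · show ‖evc (1 : I) b₀ - sD 0‖ ≤ 1 / 16
    rw [← evc_fC, ← map_sub]
    exact (norm_evc_le _ _).trans (by rw [norm_sub_rev]; exact h0.le)
  · show ‖evc (1 : I) b₁ - sD 1‖ ≤ 1 / 16
    rw [← evc_fC, ← map_sub]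
    exact (norm_evc_le _ _).trans (by rw [norm_sub_rev]; exact h1.le)

theorem counterexample : Counterexample :=
  ⟨Cn DD, inferInstance, separable_cone, isNuclear_cone isNuclear_DD, isStablyFinite_cone,
    not_locallyTypeI⟩

end Pool.Agent.H231R3.TI
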